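import Mathlib

/-!
Product formulas for `sinc x = sin x / x` and `shc x = sinh x / x` and the brackets
`shc c ^ 2 - shc p * shc q`, `2 c ^ 2 = p ^ 2 + q ^ 2`.
-/

set_option autoImplicit false

namespace Pool.Agent.Helper95.SP

open Filter Topology Real

/-- `sinh x / x` -/
noncomputable def shc (x : ℝ) : ℝ := if x = 0 then 1 else sinh x / x

/-- the partial products of the common product formula -/
noncomputable def pr (v : ℝ) (n : ℕ) : ℝ := ∏ j ∈ Finset.range n, (1 + v / (π ^ 2 * ((j : ℝ) + 1) ^ 2))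

theorem tendsto_shc (x : ℝ) : Tendsto (pr (x ^ 2)) atTop (𝓝 (shc x)) := by
  by_cases hx : x = 0
  · subst hx
    have : pr ((0:ℝ) ^ 2) = fun _ => 1 := by
      ext n; unfold pr; simp
    rw [this]; unfold shc; simp
  · have h := Complex.tendsto_euler_sin_prod (Complex.I * (x / π : ℝ))
    have hπ : (π : ℂ) ≠ 0 := by exact_mod_cast pi_ne_zero
    have e1 : (π : ℂ) * (Complex.I * (x / π : ℝ)) = x * Complex.I := by
      push_cast; field_simp
    rw [e1, Complex.sin_mul_I] at h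
    have hxI : (x : ℂ) * Complex.I ≠ 0 := mul_ne_zero (by exact_mod_cast hx) Complex.I_ne_zero
    have h2 := h.const_mul ((x : ℂ) * Complex.I)⁻¹
    have e2 : ((x : ℂ) * Complex.I)⁻¹ * (Complex.sinh x * Complex.I) = ((shc x : ℝ) : ℂ) := by
      unfold shc
      rw [if_neg hx]
      push_cast
      field_simp
    rw [e2] at h2
    have h3 := (Complex.continuous_re.tendsto _).comp h2
    rw [Complex.ofReal_re] at h3
    refine h3.congr fun n => ?_
    rw [Function.comp_apply, ← mul_assoc, inv_mul_cancel₀ hxI, one_mul]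
    have e3 : (∏ j ∈ Finset.range n, ((1 : ℂ) - (Complex.I * (x / π : ℝ)) ^ 2 / ((j : ℂ) + 1) ^ 2)) =
        ((pr (x ^ 2) n : ℝ) : ℂ) := by
      unfold pr
      push_cast
      refine Finset.prod_congr rfl fun j _ => ?_
      rw [mul_pow, Complex.I_sq]
      have : ((j : ℂ) + 1) ≠ 0 := by exact_mod_cast (Nat.succ_ne_zero j)
      field_simp
      ring
    rw [e3, Complex.ofReal_re]

theorem tendsto_sinc (x : ℝ) : Tendsto (pr (-x ^ 2)) atTop (𝓝 (sinc x)) := by
  by_cases hx : x = 0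
  · subst hx
    have : pr (-(0:ℝ) ^ 2) = fun _ => 1 := by
      ext n; unfold pr; simp
    rw [this]; simp
  · have h := Real.tendsto_euler_sin_prod (x / π)
    have e1 : π * (x / π) = x := by field_simp
    rw [e1] at h
    have h2 := h.const_mul x⁻¹
    rw [sinc_of_ne_zero hx]
    have e2 : x⁻¹ * sin x = sin x / x := by field_simp
    rw [e2] at h2
    refine h2.congr fun n => ?_
    rw [← mul_assoc, inv_mul_cancel₀ hx, one_mul]
    unfold pr
    refine Finset.prod_congr rfl fun j _ => ?_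
    have : ((j : ℝ) + 1) ≠ 0 := by positivity
    field_simp
    ring

theorem sum_sq_le (n : ℕ) : ∑ j ∈ Finset.range n, 1 / (π ^ 2 * ((j : ℝ) + 1) ^ 2) ≤ 1 / 6 := by
  have h := hasSum_zeta_two
  have h1 : HasSum (fun n : ℕ => (1 : ℝ) / ((n : ℝ) + 1) ^ 2) (π ^ 2 / 6) := by
    have := (hasSum_nat_add_iff' (f := fun n : ℕ => (1 : ℝ) / (n : ℝ) ^ 2) 1).mpr h
    simpa using this
  have h2 := h1.mul_left (1 / π ^ 2)
  have e : 1 / π ^ 2 * (π ^ 2 / 6) = 1 / 6 := by field_simp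
  rw [e] at h2
  have h3 := sum_le_hasSum (Finset.range n) (fun j _ => by positivity) h2
  refine le_trans (le_of_eq ?_) h3
  refine Finset.sum_congr rfl fun j _ => ?_
  field_simp

theorem sum_four_le (n : ℕ) :
    ∑ j ∈ Finset.range n, 1 / (π ^ 2 * ((j : ℝ) + 1) ^ 2) ^ 2 ≤ 1 / 90 := by
  have h := hasSum_zeta_four
  have h1 : HasSum (fun n : ℕ => (1 : ℝ) / ((n : ℝ) + 1) ^ 4) (π ^ 4 / 90) := by
    have := (hasSum_nat_add_iff' (f := fun n : ℕ => (1 : ℝ) / (n : ℝ) ^ 4) 1).mpr h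
    simpa using this
  have h2 := h1.mul_left (1 / π ^ 4)
  have e : 1 / π ^ 4 * (π ^ 4 / 90) = 1 / 90 := by field_simp
  rw [e] at h2
  have h3 := sum_le_hasSum (Finset.range n) (fun j _ => by positivity) h2
  refine le_trans (le_of_eq ?_) h3
  refine Finset.sum_congr rfl fun j _ => ?_
  field_simp

theorem pr_pos {v : ℝ} (hv : -π ^ 2 < v) (n : ℕ) : 0 < pr v n := by
  unfold pr
  refine Finset.prod_pos fun j _ => ?_
  have h1 : (1:ℝ) ≤ ((j : ℝ) + 1) ^ 2 := by
    have : (1:ℝ) ≤ (j : ℝ) + 1 := by linarith [Nat.cast_nonneg (α := ℝ) j]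
    nlinarith
  have hπ : 0 < π ^ 2 := by positivity
  rw [← sub_neg_eq_add, sub_pos, ← neg_div, div_lt_one (by positivity)]
  nlinarith

theorem pr_le_exp {v : ℝ} (hv : 0 ≤ v) (n : ℕ) : pr v n ≤ exp (v / 6) := by
  have h1 : pr v n ≤ ∏ j ∈ Finset.range n, exp (v * (1 / (π ^ 2 * ((j : ℝ) + 1) ^ 2))) := by
    unfold pr
    refine Finset.prod_le_prod (fun j _ => by positivity) fun j _ => ?_
    have := add_one_le_exp (v * (1 / (π ^ 2 * ((j : ℝ) + 1) ^ 2)))
    rw [mul_one_div] at this ⊢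
    linarith
  rw [← Real.exp_sum, ← Finset.mul_sum] at h1
  refine h1.trans (exp_le_exp.mpr ?_)
  have := mul_le_mul_of_nonneg_left (sum_sq_le n) hv
  linarith

theorem shc_le_exp (x : ℝ) : shc x ≤ exp (x ^ 2 / 6) :=
  le_of_tendsto' (tendsto_shc x) fun n => pr_le_exp (sq_nonneg x) n

theorem one_le_shc (x : ℝ) : 1 ≤ shc x := by
  refine ge_of_tendsto' (tendsto_shc x) fun n => ?_
  unfold pr
  refine Finset.prod_induction _ (fun y => 1 ≤ y) (fun a b ha hb => by nlinarith) le_rfl ?_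
  intro j _
  have : 0 ≤ x ^ 2 / (π ^ 2 * ((j : ℝ) + 1) ^ 2) := by positivity
  linarith

/-- Weierstrass' inequality -/
theorem one_sub_sum_le {ι : Type*} (s : Finset ι) (e : ι → ℝ) (h0 : ∀ i ∈ s, 0 ≤ e i)
    (h1 : ∀ i ∈ s, e i ≤ 1) : 1 - ∑ i ∈ s, e i ≤ ∏ i ∈ s, (1 - e i) := by
  classical
  induction s using Finset.induction_on with
  | empty => simp
  | insert a s ha ih =>
    rw [Finset.sum_insert ha, Finset.prod_insert ha]
    have ih' := ih (fun i hi => h0 i (Finset.mem_insert_of_mem hi))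
      (fun i hi => h1 i (Finset.mem_insert_of_mem hi))
    have a0 := h0 a (Finset.mem_insert_self a s)
    have a1 := h1 a (Finset.mem_insert_self a s)
    have hp : ∏ i ∈ s, (1 - e i) ≤ 1 := Finset.prod_le_one
      (fun i hi => by linarith [h1 i (Finset.mem_insert_of_mem hi)])
      (fun i hi => by linarith [h0 i (Finset.mem_insert_of_mem hi)])
    nlinarith

theorem pr_bracket_le {u δ : ℝ} (hu : 0 ≤ u) (hδ : |δ| ≤ u) (n : ℕ) :
    pr u n ^ 2 - pr (u + δ) n * pr (u - δ) n ≤ pr u n ^ 2 * (δ ^ 2 / 90) := by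
  set b : ℕ → ℝ := fun j => δ / (π ^ 2 * ((j : ℝ) + 1) ^ 2) with hb
  set a : ℕ → ℝ := fun j => u / (π ^ 2 * ((j : ℝ) + 1) ^ 2) with ha
  have ha0 : ∀ j, 0 ≤ a j := fun j => by simp only [ha]; positivity
  have hb1 : ∀ j, |b j| ≤ a j := by
    intro j
    simp only [ha, hb]
    rw [abs_div, abs_of_pos (by positivity : 0 < π ^ 2 * ((j : ℝ) + 1) ^ 2)]
    exact div_le_div_of_nonneg_right hδ (by positivity)
  have e1 : pr (u + δ) n * pr (u - δ) n =
      pr u n ^ 2 * ∏ j ∈ Finset.range n, (1 - (b j / (1 + a j)) ^ 2) := by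
    unfold pr
    rw [← Finset.prod_mul_distrib, ← Finset.prod_pow, ← Finset.prod_mul_distrib]
    refine Finset.prod_congr rfl fun j _ => ?_
    have h1 : (1 + (u + δ) / (π ^ 2 * ((j : ℝ) + 1) ^ 2)) = 1 + a j + b j := by
      simp only [ha, hb]; ring
    have h2 : (1 + (u - δ) / (π ^ 2 * ((j : ℝ) + 1) ^ 2)) = 1 + a j - b j := by
      simp only [ha, hb]; ring
    have h3 : (1 + u / (π ^ 2 * ((j : ℝ) + 1) ^ 2)) = 1 + a j := rfl
    rw [h1, h2, h3]
    have : 1 + a j ≠ 0 := by linarith [ha0 j]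
    field_simp
    ring
  have hw := one_sub_sum_le (Finset.range n) (fun j => (b j / (1 + a j)) ^ 2)
    (fun j _ => sq_nonneg _) (fun j _ => by
      have hpos : 0 < 1 + a j := by linarith [ha0 j]
      rw [div_pow, div_le_one (by positivity), ← sq_abs (b j)]
      exact pow_le_pow_left₀ (abs_nonneg _) (by linarith [hb1 j]) 2)
  have hs : ∑ j ∈ Finset.range n, (b j / (1 + a j)) ^ 2 ≤ δ ^ 2 / 90 := by
    have h4 : ∀ j ∈ Finset.range n, (b j / (1 + a j)) ^ 2 ≤
        δ ^ 2 * (1 / (π ^ 2 * ((j : ℝ) + 1) ^ 2) ^ 2) := by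
      intro j _
      have hpos : 1 ≤ 1 + a j := by linarith [ha0 j]
      rw [div_pow]
      have : b j ^ 2 = δ ^ 2 * (1 / (π ^ 2 * ((j : ℝ) + 1) ^ 2) ^ 2) := by
        simp only [hb]; rw [div_pow]; ring
      rw [← this]
      exact div_le_self (sq_nonneg _) (by nlinarith)
    refine (Finset.sum_le_sum h4).trans ?_
    rw [← Finset.mul_sum]
    have := mul_le_mul_of_nonneg_left (sum_four_le n) (sq_nonneg δ)
    linarith
  rw [e1]
  nlinarith [sq_nonneg (pr u n)]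

theorem shc_bracket {p q c : ℝ} (hc : 2 * c ^ 2 = p ^ 2 + q ^ 2) :
    shc c ^ 2 - shc p * shc q ≤ shc c ^ 2 * ((p ^ 2 - q ^ 2) ^ 2 / 360) := by
  have t1 := tendsto_shc c
  have t2 := tendsto_shc p
  have t3 := tendsto_shc q
  have h1 := (t1.pow 2).sub (t2.mul t3)
  have h2 := (t1.pow 2).mul_const ((p ^ 2 - q ^ 2) ^ 2 / 360)
  refine le_of_tendsto_of_tendsto' h1 h2 fun n => ?_
  have e1 : p ^ 2 = c ^ 2 + (p ^ 2 - q ^ 2) / 2 := by linarith
  have e2 : q ^ 2 = c ^ 2 - (p ^ 2 - q ^ 2) / 2 := by linarith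
  have := pr_bracket_le (u := c ^ 2) (δ := (p ^ 2 - q ^ 2) / 2) (sq_nonneg c) (by
    rw [abs_le]; constructor <;> nlinarith [sq_nonneg p, sq_nonneg q]) n
  rw [← e1, ← e2] at this
  have e3 : ((p ^ 2 - q ^ 2) / 2) ^ 2 / 90 = (p ^ 2 - q ^ 2) ^ 2 / 360 := by ring
  rw [e3] at this
  exact this

end Pool.Agent.Helper95.SP
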