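import Pool.Agent.Helper95.SP.Kernel
import Pool.Agent.Helper95.SP.Prod

/-!
The exponential moment bound of the kernel `R = AL l r` far out.
-/

set_option autoImplicit false

namespace Pool.Agent.Helper95.SP

open MeasureTheory Set Slab Real

/-- the average of `cosh` -/
theorem A_cosh (x m s : ℝ) :
    A x (fun s => cosh (m * s)) s = 2 * shc (m * x) * cosh (m * s) := by
  unfold A
  by_cases h : m * x = 0
  · have e : ∀ u : ℝ, cosh (m * (s - x * u)) = cosh (m * s) := by
      intro u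
      have : m * (s - x * u) = m * s - m * x * u := by ring
      rw [this, h]; ring_nf
    simp_rw [e]
    unfold shc
    rw [if_pos h]
    simp
    norm_num
  · have hd : ∀ u : ℝ, HasDerivAt (fun u => -sinh (m * (s - x * u)) / (m * x))
        (cosh (m * (s - x * u))) u := by
      intro u
      have h1 : HasDerivAt (fun u => m * (s - x * u)) (-(m * x)) u := by
        have := (((hasDerivAt_id u).const_mul x).const_sub s).const_mul m
        refine this.congr_deriv ?_
        ring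
      have h2 := (h1.sinh.neg).div_const (m * x)
      refine h2.congr_deriv ?_
      rw [mul_neg, neg_neg, mul_div_assoc, div_self h, mul_one]
    rw [intervalIntegral.integral_eq_sub_of_hasDerivAt (fun u _ => hd u)
      (Continuous.intervalIntegrable (by fun_prop) _ _)]
    unfold shc
    rw [if_neg h]
    have e1 : m * (s - x * 1) = m * s - m * x := by ring
    have e2 : m * (s - x * -1) = m * s + m * x := by ring
    rw [e1, e2, sinh_sub, sinh_add]
    field_simp
    ring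

theorem AL_cosh (l : List ℝ) (m s : ℝ) :
    AL l (fun s => cosh (m * s)) s = (l.map fun x => 2 * shc (m * x)).prod * cosh (m * s) := by
  induction l generalizing s with
  | nil => simp [AL_nil]
  | cons x l ih =>
    rw [AL_cons]
    have : AL l (fun s => cosh (m * s)) =
        fun s => (l.map fun x => 2 * shc (m * x)).prod * cosh (m * s) := funext ih
    rw [this]
    have h2 : A x (fun s => (l.map fun x => 2 * shc (m * x)).prod * cosh (m * s)) s =
        (l.map fun x => 2 * shc (m * x)).prod * A x (fun s => cosh (m * s)) s := by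
      unfold A
      rw [← intervalIntegral.integral_const_mul]
    rw [h2, A_cosh, List.map_cons, List.prod_cons]
    ring

theorem AL_const_mul (l : List ℝ) (c : ℝ) (W : ℝ → ℝ) (s : ℝ) :
    AL l (fun s => c * W s) s = c * AL l W s := by
  induction l generalizing s with
  | nil => rfl
  | cons x l ih =>
    rw [AL_cons, AL_cons]
    unfold A
    rw [← intervalIntegral.integral_const_mul]
    exact intervalIntegral.integral_congr fun u _ => ih _

/-- the `cosh` transform of the kernel -/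
theorem cosh_transform {p q p' q' : ℝ} (hp : 0 < p) (hq : 0 ≤ q) (hp' : 0 < p') (hq' : 0 ≤ q')
    {r : ℝ → ℝ} (hr : Sh r) (hd : ∀ s, HasDerivAt r (A p (A q H) s - A p' (A q' H) s) s)
    (l : List ℝ) {m : ℝ} (hm : m ≠ 0) :
    ∫ s, cosh (m * s) * AL l r s =
      4 / m ^ 2 * (l.map fun x => 2 * shc (m * x)).prod *
        (shc (m * p') * shc (m * q') - shc (m * p) * shc (m * q)) := by
  have h := kernel hp hq hp' hq' hr hd l (W := fun s => 1 / m ^ 2 * cosh (m * s))
    (W₁ := fun s => 1 / m * sinh (m * s)) (w := fun s => cosh (m * s)) ?_ ?_ (by fun_prop)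
  · rw [h, AL_const_mul, AL_const_mul, AL_cosh, AL_cosh]
    simp only [List.map_append, List.prod_append, List.map_cons, List.map_nil, List.prod_cons,
      List.prod_nil, mul_zero, cosh_zero, mul_one]
    field_simp
    ring
  · intro s
    have h1 : HasDerivAt (fun s : ℝ => m * s) m s := by
      simpa using (hasDerivAt_id s).const_mul m
    refine (h1.cosh.const_mul (1 / m ^ 2)).congr_deriv ?_
    field_simp
  · intro s
    have h1 : HasDerivAt (fun s : ℝ => m * s) m s := by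
      simpa using (hasDerivAt_id s).const_mul m
    refine (h1.sinh.const_mul (1 / m)).congr_deriv ?_
    field_simp

theorem prod_shc_le (l : List ℝ) (m : ℝ) :
    (l.map fun x => 2 * shc (m * x)).prod ≤
      2 ^ l.length * exp (m ^ 2 / 6 * (l.map fun x => x ^ 2).sum) := by
  induction l with
  | nil => simp
  | cons x l ih =>
    rw [List.map_cons, List.prod_cons, List.length_cons, List.map_cons, List.sum_cons, mul_add,
      exp_add, pow_succ]
    have h1 : shc (m * x) ≤ exp (m ^ 2 / 6 * x ^ 2) := by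
      refine (shc_le_exp (m * x)).trans (le_of_eq ?_)
      congr 1
      ring
    have h0 : 0 ≤ (l.map fun x => 2 * shc (m * x)).prod := by
      apply List.prod_nonneg
      intro y hy
      obtain ⟨x, _, rfl⟩ := List.mem_map.mp hy
      linarith [one_le_shc (m * x)]
    calc 2 * shc (m * x) * (l.map fun x => 2 * shc (m * x)).prod
        ≤ 2 * exp (m ^ 2 / 6 * x ^ 2) *
          (2 ^ l.length * exp (m ^ 2 / 6 * (l.map fun x => x ^ 2).sum)) := by
          apply mul_le_mul _ ih h0 (by positivity)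
          linarith
      _ = _ := by ring

theorem cosh_transform_le {p q c : ℝ} (hp : 0 < p) (hq : 0 ≤ q) (hc0 : 0 < c)
    (hc : 2 * c ^ 2 = p ^ 2 + q ^ 2)
    {r : ℝ → ℝ} (hr : Sh r) (hd : ∀ s, HasDerivAt r (A p (A q H) s - A c (A c H) s) s)
    (l : List ℝ) (hl : p ^ 2 + q ^ 2 + (l.map fun x => x ^ 2).sum = 1) {m : ℝ} (hm : m ≠ 0) :
    ∫ s, cosh (m * s) * AL l r s ≤
      2 ^ (l.length + 2) * (m ^ 2 * exp (m ^ 2 / 6) * ((p ^ 2 - q ^ 2) ^ 2 / 360)) := by
  rw [cosh_transform hp hq hc0 hc0.le hr hd l hm]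
  have h1 := shc_bracket (p := m * p) (q := m * q) (c := m * c)
    (by linear_combination m ^ 2 * hc)
  have h2 : shc (m * c) ≤ exp (m ^ 2 / 6 * c ^ 2) := by
    refine (shc_le_exp (m * c)).trans (le_of_eq ?_)
    congr 1
    ring
  have h20 : 0 ≤ shc (m * c) := by linarith [one_le_shc (m * c)]
  have h3 : shc (m * c) ^ 2 ≤ exp (m ^ 2 / 6 * (p ^ 2 + q ^ 2)) := by
    have : exp (m ^ 2 / 6 * (p ^ 2 + q ^ 2)) = exp (m ^ 2 / 6 * c ^ 2) ^ 2 := by
      rw [← exp_nat_mul]
      congr 1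
      rw [← hc]; push_cast; ring
    rw [this]
    exact pow_le_pow_left₀ h20 h2 2
  have h4 := prod_shc_le l m
  have h40 : 0 ≤ (l.map fun x => 2 * shc (m * x)).prod := by
    apply List.prod_nonneg
    intro y hy
    obtain ⟨x, _, rfl⟩ := List.mem_map.mp hy
    linarith [one_le_shc (m * x)]
  have h5 : shc (m * c) * shc (m * c) - shc (m * p) * shc (m * q) ≤
      exp (m ^ 2 / 6 * (p ^ 2 + q ^ 2)) * (m ^ 4 * (p ^ 2 - q ^ 2) ^ 2 / 360) := by
    have e : ((m * p) ^ 2 - (m * q) ^ 2) ^ 2 / 360 = m ^ 4 * (p ^ 2 - q ^ 2) ^ 2 / 360 := by ring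
    rw [e] at h1
    have h6 : 0 ≤ m ^ 4 * (p ^ 2 - q ^ 2) ^ 2 / 360 := by positivity
    calc _ = shc (m * c) ^ 2 - shc (m * p) * shc (m * q) := by ring
      _ ≤ _ := h1
      _ ≤ _ := mul_le_mul_of_nonneg_right h3 h6
  have hm2 : 0 < m ^ 2 := by positivity
  calc 4 / m ^ 2 * (l.map fun x => 2 * shc (m * x)).prod *
        (shc (m * c) * shc (m * c) - shc (m * p) * shc (m * q))
      ≤ 4 / m ^ 2 * (l.map fun x => 2 * shc (m * x)).prod *
        (exp (m ^ 2 / 6 * (p ^ 2 + q ^ 2)) * (m ^ 4 * (p ^ 2 - q ^ 2) ^ 2 / 360)) :=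
        mul_le_mul_of_nonneg_left h5 (by positivity)
    _ ≤ 4 / m ^ 2 * (2 ^ l.length * exp (m ^ 2 / 6 * (l.map fun x => x ^ 2).sum)) *
        (exp (m ^ 2 / 6 * (p ^ 2 + q ^ 2)) * (m ^ 4 * (p ^ 2 - q ^ 2) ^ 2 / 360)) := by
        apply mul_le_mul_of_nonneg_right _ (by positivity)
        exact mul_le_mul_of_nonneg_left h4 (by positivity)
    _ = 2 ^ (l.length + 2) * (m ^ 2 * (exp (m ^ 2 / 6 * (l.map fun x => x ^ 2).sum) *
          exp (m ^ 2 / 6 * (p ^ 2 + q ^ 2))) * ((p ^ 2 - q ^ 2) ^ 2 / 360)) := by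
        rw [pow_add]
        field_simp
        ring
    _ = _ := by
        rw [← exp_add]
        have : m ^ 2 / 6 * (l.map fun x => x ^ 2).sum + m ^ 2 / 6 * (p ^ 2 + q ^ 2) = m ^ 2 / 6 := by
          rw [← mul_add, add_comm (l.map fun x => x ^ 2).sum, hl, mul_one]
        rw [this]

/-- exponential moment bound for a function of the shape class which is decreasing beyond `b` -/
theorem exp_bound {R : ℝ → ℝ} (hS : Sh R) {b : ℝ} (hb : 0 ≤ b) (hanti : AntitoneOn R (Ici b))
    {m a y : ℝ} (hm : 0 < m) (ha : 0 ≤ a) (hy : b ≤ y - a) :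
    R y * (a * (cosh (m * (y - a)) - cosh (m * b))) ≤ ∫ s, cosh (m * s) * R s := by
  obtain ⟨s₁, z, hs10, hs1z, hneg, hpos, hmono, hanti'⟩ := hS.shape
  obtain ⟨L, hL⟩ := hS.supp
  have hRb : ∀ s, b ≤ s → 0 ≤ R s := by
    intro s hs
    have h1 : R (max L s) ≤ R s := hanti hs (hs.trans (le_max_right _ _)) (le_max_right _ _)
    rwa [hL _ ((le_max_left L s).trans (le_abs_self _))] at h1
  -- the sign point
  obtain ⟨s₂, h20, h2b, h2neg, h2pos⟩ : ∃ s₂, 0 ≤ s₂ ∧ s₂ ≤ b ∧ (∀ s, 0 ≤ s → s ≤ s₂ → R s ≤ 0) ∧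
      (∀ s, s₂ ≤ s → 0 ≤ R s) := by
    rcases le_total s₁ b with h | h
    · exact ⟨s₁, hs10, h, hneg, hpos⟩
    · exact ⟨b, hb, le_rfl, fun s hs hs' => hneg s hs (hs'.trans h), hRb⟩
  have hRc := hS.cont
  have hcs : HasCompactSupport R := Mom.cs hL
  have hi1 : Integrable (fun s => cosh (m * s) * R s) :=
    Mom.int_mul hRc hL (w := fun s => cosh (m * s)) (by fun_prop)
  have hi0 : Integrable R := hRc.integrable_of_hasCompactSupport hcs
  have hnn : ∀ s, 0 ≤ (cosh (m * s) - cosh (m * s₂)) * R s := by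
    intro s
    have e1 : R s = R |s| := by
      rcases abs_choice s with h | h
      · rw [h]
      · rw [h, hS.even]
    have e2 : cosh (m * s) = cosh (m * |s|) := by
      rw [← cosh_abs (m * s), abs_mul, abs_of_pos hm]
    rw [e1, e2]
    have hcm : ∀ x y : ℝ, 0 ≤ x → x ≤ y → cosh (m * x) ≤ cosh (m * y) := by
      intro x y hx hxy
      rw [cosh_le_cosh, abs_of_nonneg (by positivity), abs_of_nonneg (by nlinarith)]
      nlinarith
    rcases le_total |s| s₂ with h | h
    · exact mul_nonneg_of_nonpos_of_nonpos (by linarith [hcm _ _ (abs_nonneg s) h])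
        (h2neg _ (abs_nonneg s) h)
    · exact mul_nonneg (by linarith [hcm _ _ h20 h]) (h2pos _ h)
  have hiS : Integrable (fun s => (cosh (m * s) - cosh (m * s₂)) * R s) := by
    have := hi1.sub (hi0.const_mul (cosh (m * s₂)))
    refine this.congr (Filter.Eventually.of_forall fun s => ?_)
    show cosh (m * s) * R s - cosh (m * s₂) * R s = _
    ring
  have e0 : ∫ s, (cosh (m * s) - cosh (m * s₂)) * R s = ∫ s, cosh (m * s) * R s := by
    have : ∀ s, (cosh (m * s) - cosh (m * s₂)) * R s =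
        cosh (m * s) * R s - cosh (m * s₂) * R s := fun s => by ring
    simp_rw [this]
    rw [integral_sub hi1 (hi0.const_mul _), integral_const_mul, hS.int0, mul_zero, sub_zero]
  rw [← e0]
  have hya : y - a ≤ y := by linarith
  have h3 : ∫ s in (y - a)..y, (cosh (m * s) - cosh (m * s₂)) * R s ≤
      ∫ s, (cosh (m * s) - cosh (m * s₂)) * R s := by
    rw [intervalIntegral.integral_of_le hya]
    exact setIntegral_le_integral hiS (Filter.Eventually.of_forall hnn)
  refine le_trans ?_ h3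
  have h4 : ∫ s in (y - a)..y, (cosh (m * (y - a)) - cosh (m * b)) * R y ≤
      ∫ s in (y - a)..y, (cosh (m * s) - cosh (m * s₂)) * R s := by
    refine intervalIntegral.integral_mono_on hya (by simp) hiS.intervalIntegrable ?_
    intro s hs
    have hbs : b ≤ s := hy.trans hs.1
    have hs0 : 0 ≤ s := hb.trans hbs
    have hya0 : 0 ≤ y - a := hb.trans hy
    have c1 : cosh (m * (y - a)) ≤ cosh (m * s) := by
      rw [cosh_le_cosh, abs_of_nonneg (by positivity), abs_of_nonneg (by positivity)]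
      nlinarith [hs.1]
    have c2 : cosh (m * s₂) ≤ cosh (m * b) := by
      rw [cosh_le_cosh, abs_of_nonneg (by positivity), abs_of_nonneg (by positivity)]
      nlinarith
    have c3 : cosh (m * b) ≤ cosh (m * (y - a)) := by
      rw [cosh_le_cosh, abs_of_nonneg (by positivity), abs_of_nonneg (by positivity)]
      nlinarith
    have r1 : R y ≤ R s := hanti hbs (hbs.trans hs.2) hs.2
    have r0 : 0 ≤ R y := hRb y (hbs.trans hs.2)
    exact mul_le_mul (by linarith) r1 r0 (by linarith)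
  refine le_trans (le_of_eq ?_) h4
  rw [intervalIntegral.integral_const, smul_eq_mul]
  ring

/-- `R = AL l r` is decreasing beyond `sqrt (10/3)` -/
theorem antitone_R {p q c : ℝ} (hp : 0 < p) (hq : 0 ≤ q) (hc0 : 0 < c)
    {r : ℝ → ℝ} (hr : Sh r) (hd : ∀ s, HasDerivAt r (A p (A q H) s - A c (A c H) s) s)
    (h2 : 0 < ∫ s, s ^ 2 * r s)
    (h4 : ∫ s, s ^ 4 * r s = 6 / 7 * (p ^ 2 + q ^ 2) * ∫ s, s ^ 2 * r s)
    (l : List ℝ) (hl : p ^ 2 + q ^ 2 + (l.map fun x => x ^ 2).sum = 1) :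
    AntitoneOn (AL l r) (Ici 1.8258) := by
  have c1 : Continuous (A p (A q H)) := AAH_continuous hp hq
  have c2 : Continuous (A c (A c H)) := AAH_continuous hc0 hc0.le
  obtain ⟨m2, m4⟩ := moments_AL hr h2 h4 l
  have hD := hasDerivAt_AL hd (c1.sub c2) l
  have hS := hr.AL l
  apply antitoneOn_of_deriv_nonpos (convex_Ici _) hS.cont.continuousOn
  · intro s _
    exact (hD s).differentiableAt.differentiableWithinAt
  · intro s hs
    rw [interior_Ici] at hs
    rw [(hD s).deriv]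
    have hs' : (1.8258 : ℝ) < s := hs
    refine hS.deriv_nonpos hD m2 (le_of_eq m4) (by linarith) ?_
    have hpq : 0 ≤ p ^ 2 + q ^ 2 := by positivity
    nlinarith

theorem exp_thirty : (10 : ℝ) ^ 13 ≤ exp 30 := by
  have h := exp_one_gt_d9
  have : exp 30 = exp 1 ^ 30 := by rw [← exp_nat_mul]; norm_num
  rw [this]
  calc (10 : ℝ) ^ 13 ≤ 2.7182818283 ^ 30 := by norm_num
    _ ≤ exp 1 ^ 30 := pow_le_pow_left₀ (by norm_num) h.le 30

theorem exp_thirteen : (442000 : ℝ) ≤ exp 13 := by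
  have h := exp_one_gt_d9
  have : exp 13 = exp 1 ^ 13 := by rw [← exp_nat_mul]; norm_num
  rw [this]
  calc (442000 : ℝ) ≤ 2.7182818283 ^ 13 := by norm_num
    _ ≤ exp 1 ^ 13 := pow_le_pow_left₀ (by norm_num) h.le 13

theorem cosh_ge (x : ℝ) : exp x / 2 ≤ cosh x := by
  rw [cosh_eq]; linarith [exp_pos (-x)]

theorem cosh_le_exp' {x : ℝ} (hx : 0 ≤ x) : cosh x ≤ exp x := by
  rw [cosh_eq]
  have : exp (-x) ≤ exp x := exp_le_exp.mpr (by linarith)
  linarith

/-- far bound: beyond `5` -/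
theorem far_five {p q c : ℝ} (hp : 0 < p) (hq : 0 ≤ q) (hc0 : 0 < c)
    (hc : 2 * c ^ 2 = p ^ 2 + q ^ 2)
    {r : ℝ → ℝ} (hr : Sh r) (hd : ∀ s, HasDerivAt r (A p (A q H) s - A c (A c H) s) s)
    (h2 : 0 < ∫ s, s ^ 2 * r s)
    (h4 : ∫ s, s ^ 4 * r s = 6 / 7 * (p ^ 2 + q ^ 2) * ∫ s, s ^ 2 * r s)
    (l : List ℝ) (hl : p ^ 2 + q ^ 2 + (l.map fun x => x ^ 2).sum = 1) {y : ℝ} (hy : 5 ≤ y) :
    AL l r y ≤ 2 ^ (l.length + 2) * ((p ^ 2 - q ^ 2) ^ 2 * (exp (-(12 * (y - 5))) / 10 ^ 12)) := by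
  have h := exp_bound (hr.AL l) (by norm_num) (antitone_R hp hq hc0 hr hd h2 h4 l hl)
    (m := 12) (a := 1 / 2) (y := y) (by norm_num) (by norm_num) (by linarith)
  have h' := h.trans (cosh_transform_le hp hq hc0 hc hr hd l hl (by norm_num))
  set N : ℝ := 2 ^ (l.length + 2) with hN
  have hN0 : 0 < N := by positivity
  set d : ℝ := (p ^ 2 - q ^ 2) ^ 2 with hdd
  have hd0 : 0 ≤ d := sq_nonneg _
  have e24 : ((12:ℝ) ^ 2 / 6) = 24 := by norm_num
  rw [e24] at h'
  -- lower bound of the factor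
  have k1 : exp (12 * (y - 1 / 2)) = exp 24 * exp 30 * exp (12 * (y - 5)) := by
    rw [← exp_add, ← exp_add]; congr 1; ring
  have k2 : cosh (12 * 1.8258) ≤ exp 24 :=
    (cosh_le_exp' (by norm_num)).trans (exp_le_exp.mpr (by norm_num))
  have k3 := cosh_ge (12 * (y - 1 / 2))
  have k4 : 1 ≤ exp (12 * (y - 5)) := by
    rw [← exp_zero]; exact exp_le_exp.mpr (by linarith)
  have e0 := exp_pos 24
  have k5 : exp 24 * (10 ^ 12) * exp (12 * (y - 5)) ≤
      1 / 2 * (cosh (12 * (y - 1 / 2)) - cosh (12 * 1.8258)) := by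
    have : exp 24 * (10 ^ 13) * exp (12 * (y - 5)) ≤ exp (12 * (y - 1 / 2)) := by
      rw [k1]
      apply mul_le_mul_of_nonneg_right _ (by positivity)
      exact mul_le_mul_of_nonneg_left exp_thirty e0.le
    have k6 : exp 24 ≤ exp 24 * exp (12 * (y - 5)) := le_mul_of_one_le_right e0.le k4
    have k7 : 0 ≤ exp 24 * exp (12 * (y - 5)) := by positivity
    nlinarith
  have hfac : 0 < 1 / 2 * (cosh (12 * (y - 1 / 2)) - cosh (12 * 1.8258)) :=
    lt_of_lt_of_le (by positivity) k5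
  by_contra hcon
  push Not at hcon
  have k8 : N * (d * (exp (-(12 * (y - 5))) / 10 ^ 12)) *
      (exp 24 * (10 ^ 12) * exp (12 * (y - 5))) <
      AL l r y * (1 / 2 * (cosh (12 * (y - 1 / 2)) - cosh (12 * 1.8258))) := by
    calc _ ≤ N * (d * (exp (-(12 * (y - 5))) / 10 ^ 12)) *
          (1 / 2 * (cosh (12 * (y - 1 / 2)) - cosh (12 * 1.8258))) :=
          mul_le_mul_of_nonneg_left k5 (by positivity)
      _ < _ := mul_lt_mul_of_pos_right hcon hfac
  have k9 : N * (d * (exp (-(12 * (y - 5))) / 10 ^ 12)) *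
      (exp 24 * (10 ^ 12) * exp (12 * (y - 5))) = N * (d * exp 24) := by
    have : exp (-(12 * (y - 5))) * exp (12 * (y - 5)) = 1 := by
      rw [← exp_add]; simp
    calc _ = N * (d * exp 24) * (exp (-(12 * (y - 5))) * exp (12 * (y - 5))) := by ring
      _ = _ := by rw [this, mul_one]
  rw [k9] at k8
  have : N * (d * exp 24) < N * (12 ^ 2 * exp 24 * (d / 360)) := lt_of_lt_of_le k8 h'
  have h10 : 0 ≤ N * (d * exp 24) := by positivity
  nlinarith

/-- far bound: beyond `3.09` -/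
theorem far_three {p q c : ℝ} (hp : 0 < p) (hq : 0 ≤ q) (hc0 : 0 < c)
    (hc : 2 * c ^ 2 = p ^ 2 + q ^ 2)
    {r : ℝ → ℝ} (hr : Sh r) (hd : ∀ s, HasDerivAt r (A p (A q H) s - A c (A c H) s) s)
    (h2 : 0 < ∫ s, s ^ 2 * r s)
    (h4 : ∫ s, s ^ 4 * r s = 6 / 7 * (p ^ 2 + q ^ 2) * ∫ s, s ^ 2 * r s)
    (l : List ℝ) (hl : p ^ 2 + q ^ 2 + (l.map fun x => x ^ 2).sum = 1) {y : ℝ} (hy : 3.09 ≤ y) :
    AL l r y ≤ 2 ^ (l.length + 2) * ((p ^ 2 - q ^ 2) ^ 2 / 10 ^ 5) := by
  have h := exp_bound (hr.AL l) (by norm_num) (antitone_R hp hq hc0 hr hd h2 h4 l hl)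
    (m := 9) (a := 0.11) (y := y) (by norm_num) (by norm_num) (by linarith)
  have h' := h.trans (cosh_transform_le hp hq hc0 hc hr hd l hl (by norm_num))
  set N : ℝ := 2 ^ (l.length + 2) with hN
  have hN0 : 0 < N := by positivity
  set d : ℝ := (p ^ 2 - q ^ 2) ^ 2 with hdd
  have hd0 : 0 ≤ d := sq_nonneg _
  have e24 : ((9:ℝ) ^ 2 / 6) = 13.5 := by norm_num
  rw [e24] at h'
  have k1 : exp 13.5 * exp 13 * exp 0.32 = exp 26.82 := by
    rw [← exp_add, ← exp_add]; congr 1; norm_num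
  have k32 : (1.32:ℝ) ≤ exp 0.32 := by linarith [add_one_le_exp (0.32:ℝ)]
  have k2 : cosh (9 * 1.8258) ≤ exp 13.5 * 20.25 := by
    have a1 : cosh (9 * 1.8258) ≤ exp (13.5 + 3) :=
      (cosh_le_exp' (by norm_num)).trans (exp_le_exp.mpr (by norm_num))
    rw [exp_add] at a1
    have a2 : exp 3 ≤ 20.25 := by
      have : exp 3 = exp 1 ^ 3 := by rw [← exp_nat_mul]; norm_num
      rw [this]
      calc exp 1 ^ 3 ≤ 2.7182818286 ^ 3 := pow_le_pow_left₀ (exp_pos 1).le exp_one_lt_d9.le 3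
        _ ≤ 20.25 := by norm_num
    exact a1.trans (mul_le_mul_of_nonneg_left a2 (exp_pos _).le)
  have k3 : exp 26.82 / 2 ≤ cosh (9 * (y - 0.11)) := by
    refine le_trans ?_ (cosh_ge _)
    have : exp 26.82 ≤ exp (9 * (y - 0.11)) := exp_le_exp.mpr (by linarith)
    linarith
  have e0 := exp_pos 13.5
  have k5 : exp 13.5 * 22500 ≤ 0.11 * (cosh (9 * (y - 0.11)) - cosh (9 * 1.8258)) := by
    have a1 : exp 13.5 * 442000 * 1.32 ≤ exp 26.82 := by
      rw [← k1]
      apply mul_le_mul _ k32 (by norm_num) (by positivity)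
      exact mul_le_mul_of_nonneg_left exp_thirteen e0.le
    nlinarith
  have hfac : 0 < 0.11 * (cosh (9 * (y - 0.11)) - cosh (9 * 1.8258)) :=
    lt_of_lt_of_le (by positivity) k5
  by_contra hcon
  push Not at hcon
  have k8 : N * (d / 10 ^ 5) * (exp 13.5 * 22500) <
      AL l r y * (0.11 * (cosh (9 * (y - 0.11)) - cosh (9 * 1.8258))) := by
    calc _ ≤ N * (d / 10 ^ 5) * (0.11 * (cosh (9 * (y - 0.11)) - cosh (9 * 1.8258))) :=
          mul_le_mul_of_nonneg_left k5 (by positivity)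
      _ < _ := mul_lt_mul_of_pos_right hcon hfac
  have : N * (d / 10 ^ 5) * (exp 13.5 * 22500) < N * (9 ^ 2 * exp 13.5 * (d / 360)) :=
    lt_of_lt_of_le k8 h'
  have h10 : 0 ≤ N * (d * exp 13.5) := by positivity
  nlinarith

end Pool.Agent.Helper95.SP
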