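import Pool.Agent.Helper89.Slab.Tail

/-!
Slabs of the cube (problem MP_66ebcc_gt), project SP: the function `AL l r` is the kernel of the
difference of the two averages: `∫ W'' * AL l r = AL (l ++ [p', q']) W 0 - AL (l ++ [p, q]) W 0`.
-/

set_option autoImplicit false

namespace Pool.Agent.Helper95.SP

open MeasureTheory Set Slab

theorem H_measurable : Measurable H := by
  unfold H
  exact Measurable.ite measurableSet_Iio measurable_const measurable_const

theorem H_bdd (s : ℝ) : |H s| ≤ 1 := by
  unfold H; split_ifs <;> simp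

/-- swap of a finite integral with the average -/
theorem swap {φ W₁ : ℝ → ℝ} (hφ : Measurable φ) {B : ℝ} (hB : ∀ s, |φ s| ≤ B)
    (hW : Continuous W₁) (x L b : ℝ) :
    ∫ s in (-L)..L, W₁ s * A x φ (s - b) =
      ∫ u in (-1 : ℝ)..1, ∫ s in (-L)..L, W₁ s * φ (s - (b + x * u)) := by
  have h1 : ∀ s, W₁ s * A x φ (s - b) = ∫ u in (-1 : ℝ)..1, W₁ s * φ (s - (b + x * u)) := by
    intro s
    unfold A
    rw [← intervalIntegral.integral_const_mul]
    refine intervalIntegral.integral_congr fun u _ => ?_
    show W₁ s * φ (s - b - x * u) = W₁ s * φ (s - (b + x * u))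
    rw [sub_sub]
  simp_rw [h1]
  refine intervalIntegral_intervalIntegral_swap (F := fun s u => W₁ s * φ (s - (b + x * u))) ?_
  obtain ⟨C, hC⟩ := (isCompact_uIcc (a := -L) (b := L)).exists_bound_of_continuousOn
    (hW.continuousOn)
  refine Measure.integrableOn_of_bounded (M := C * B) ?_ ?_ ?_
  · exact ((measure_mono (prod_mono uIoc_subset_uIcc uIoc_subset_uIcc)).trans_lt
      (isCompact_uIcc.prod isCompact_uIcc).measure_lt_top).ne
  · apply Measurable.aestronglyMeasurable
    show Measurable fun p : ℝ × ℝ => W₁ p.1 * φ (p.1 - (b + x * p.2))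
    exact (hW.measurable.comp measurable_fst).mul (hφ.comp (by fun_prop))
  · refine (ae_restrict_iff' (measurableSet_uIoc.prod measurableSet_uIoc)).mpr ?_
    refine Filter.Eventually.of_forall fun p hp => ?_
    show ‖W₁ p.1 * φ (p.1 - (b + x * p.2))‖ ≤ C * B
    rw [norm_mul]
    have hC0 : 0 ≤ C := (norm_nonneg _).trans (hC p.1 (uIoc_subset_uIcc hp.1))
    exact mul_le_mul (hC p.1 (uIoc_subset_uIcc hp.1)) (hB _) (norm_nonneg _) hC0

/-- reflection invariance of the average at zero -/
theorem A_comp_mul (x : ℝ) (φ : ℝ → ℝ) (s : ℝ) :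
    ∫ u in (-1 : ℝ)..1, φ (s + x * u) = A x φ s := by
  unfold A
  have := intervalIntegral.integral_comp_neg (a := -1) (b := 1) (f := fun u => φ (s - x * u))
  rw [neg_neg] at this
  rw [← this]
  refine intervalIntegral.integral_congr fun u _ => ?_
  show φ (s + x * u) = φ (s - x * -u)
  ring_nf

/-- one indicator -/
theorem int_H {W W₁ : ℝ → ℝ} (hW : ∀ s, HasDerivAt W (W₁ s) s) (hW₁ : Continuous W₁) {L b : ℝ}
    (hb : |b| ≤ L) : ∫ s in (-L)..L, W₁ s * H (s - b) = W b - W (-L) := by
  obtain ⟨hb1, hb2⟩ := abs_le.mp hb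
  have hi : ∀ x y, IntervalIntegrable (fun s => W₁ s * H (s - b)) volume x y := by
    intro x y
    have h1 : IntervalIntegrable W₁ volume x y := hW₁.intervalIntegrable x y
    rw [intervalIntegrable_iff] at h1 ⊢
    refine h1.mul_bdd (c := 1) ?_ ?_
    · exact (H_measurable.comp (measurable_id.sub_const b)).aestronglyMeasurable
    · exact Filter.Eventually.of_forall fun s => by simpa using H_bdd (s - b)
  rw [← intervalIntegral.integral_add_adjacent_intervals (hi (-L) b) (hi b L)]
  have e1 : ∫ s in (-L)..b, W₁ s * H (s - b) = ∫ s in (-L)..b, W₁ s := by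
    apply intervalIntegral.integral_congr_ae
    have hne : ∀ᵐ s : ℝ, s ≠ b := by
      rw [ae_iff]
      simp
    filter_upwards [hne] with s hs hm
    rw [uIoc_of_le hb1] at hm
    unfold H
    rw [if_pos (by linarith [lt_of_le_of_ne hm.2 hs]), mul_one]
  have e2 : ∫ s in b..L, W₁ s * H (s - b) = 0 := by
    rw [intervalIntegral.integral_congr (g := fun _ => (0:ℝ))]
    · simp
    · intro s hs
      rw [uIcc_of_le hb2] at hs
      show W₁ s * H (s - b) = 0
      unfold H
      rw [if_neg (by linarith [hs.1]), mul_zero]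
  rw [e1, e2, add_zero, intervalIntegral.integral_eq_sub_of_hasDerivAt (fun s _ => hW s)
    (hW₁.intervalIntegrable _ _)]

/-- two averages of the indicator -/
theorem int_AAH {p q L : ℝ} (hL : |p| + |q| ≤ L) {W W₁ : ℝ → ℝ}
    (hW : ∀ s, HasDerivAt W (W₁ s) s) (hW₁ : Continuous W₁) (hAq : Measurable (A q H)) :
    ∫ s in (-L)..L, W₁ s * A p (A q H) s = A p (A q W) 0 - 4 * W (-L) := by
  have hWc : Continuous W := continuous_iff_continuousAt.mpr fun s => (hW s).continuousAt
  have hb : ∀ s, |A q H s| ≤ 2 := by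
    intro s
    unfold A
    have := intervalIntegral.norm_integral_le_of_norm_le_const (a := (-1:ℝ)) (b := 1)
      (f := fun u => H (s - q * u)) (C := 1) (fun u _ => H_bdd _)
    rw [Real.norm_eq_abs] at this
    norm_num at this
    exact this
  have h1 := swap hAq hb hW₁ p L 0
  simp only [sub_zero, zero_add] at h1
  rw [h1]
  have h2 : ∀ u ∈ uIcc (-1:ℝ) 1, (∫ s in (-L)..L, W₁ s * A q H (s - p * u)) =
      A q W (p * u) - 2 * W (-L) := by
    intro u hu
    rw [swap H_measurable H_bdd hW₁ q L (p * u)]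
    have h3 : ∀ v ∈ uIcc (-1:ℝ) 1, (∫ s in (-L)..L, W₁ s * H (s - (p * u + q * v))) =
        W (p * u + q * v) - W (-L) := by
      intro v hv
      apply int_H hW hW₁
      rw [uIcc_of_le (by norm_num)] at hu hv
      have a1 : |p * u| ≤ |p| := by
        rw [abs_mul]
        exact mul_le_of_le_one_right (abs_nonneg _) (abs_le.mpr hu)
      have a2 : |q * v| ≤ |q| := by
        rw [abs_mul]
        exact mul_le_of_le_one_right (abs_nonneg _) (abs_le.mpr hv)
      linarith [abs_add_le (p * u) (q * v)]
    rw [intervalIntegral.integral_congr h3, intervalIntegral.integral_sub, A_comp_mul]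
    · simp only [intervalIntegral.integral_const, smul_eq_mul]; ring
    · exact Continuous.intervalIntegrable (by fun_prop) _ _
    · simp
  rw [intervalIntegral.integral_congr h2, intervalIntegral.integral_sub]
  · have h4 := A_comp_mul p (A q W) 0
    simp only [zero_add] at h4
    rw [h4]
    simp only [intervalIntegral.integral_const, smul_eq_mul]; ring
  · have : Continuous (A q W) := continuous_A hWc q
    exact Continuous.intervalIntegrable (by fun_prop) _ _
  · simp

/-- the kernel identity, base case -/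
theorem base_kernel {p q p' q' : ℝ} (hp : 0 < p) (hq : 0 ≤ q) (hp' : 0 < p') (hq' : 0 ≤ q')
    {r : ℝ → ℝ} (hr : Sh r) (hd : ∀ s, HasDerivAt r (A p (A q H) s - A p' (A q' H) s) s)
    {W W₁ w : ℝ → ℝ} (hW : ∀ s, HasDerivAt W (W₁ s) s) (hW₁ : ∀ s, HasDerivAt W₁ (w s) s)
    (hw : Continuous w) :
    ∫ s, w s * r s = A p' (A q' W) 0 - A p (A q W) 0 := by
  obtain ⟨L₀, hL₀⟩ := hr.supp
  set L : ℝ := max L₀ (max (|p| + |q|) (|p'| + |q'|)) with hL
  have l1 : L₀ ≤ L := le_max_left _ _
  have l2 : |p| + |q| ≤ L := (le_max_left _ _).trans (le_max_right _ _)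
  have l3 : |p'| + |q'| ≤ L := (le_max_right _ _).trans (le_max_right _ _)
  have l0 : 0 ≤ L := (by positivity : 0 ≤ |p| + |q|).trans l2
  have hW₁c : Continuous W₁ := continuous_iff_continuousAt.mpr fun s => (hW₁ s).continuousAt
  have c1 : Continuous (A p (A q H)) := AAH_continuous hp hq
  have c2 : Continuous (A p' (A q' H)) := AAH_continuous hp' hq'
  have mq : ∀ x : ℝ, 0 ≤ x → Measurable (A x H) := by
    intro x hx
    rcases hx.eq_or_lt with h | h
    · rw [← h]
      have : A 0 H = fun s => 2 * H s := by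
        ext s
        exact AAHaux.A_zero H s
      rw [this]
      exact H_measurable.const_mul 2
    · have : A x H = fun s => 1 - (|s + x| - |s - x|) / (2 * x) := by
        ext s
        exact AAHaux.A_H_pos h s
      rw [this]
      fun_prop
  have e1 : ∫ s, w s * r s = ∫ s in (-L)..L, w s * r s := by
    symm
    apply intervalIntegral.integral_eq_integral_of_support_subset
    intro s hs
    rw [Function.mem_support] at hs
    have : |s| < L := by
      by_contra h
      apply hs
      rw [hL₀ s (l1.trans (not_lt.mp h)), mul_zero]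
    rw [abs_lt] at this
    exact ⟨this.1, this.2.le⟩
  have e2 := intervalIntegral.integral_mul_deriv_eq_deriv_mul (a := -L) (b := L)
    (u := r) (v := W₁) (u' := fun s => A p (A q H) s - A p' (A q' H) s) (v' := w)
    (fun s _ => hd s) (fun s _ => hW₁ s) ((c1.sub c2).intervalIntegrable _ _)
    (hw.intervalIntegrable _ _)
  rw [hL₀ L (by rw [abs_of_nonneg l0]; exact l1),
    hL₀ (-L) (by rw [abs_neg, abs_of_nonneg l0]; exact l1)] at e2
  have e3 : ∫ s in (-L)..L, (A p (A q H) s - A p' (A q' H) s) * W₁ s =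
      (∫ s in (-L)..L, W₁ s * A p (A q H) s) - ∫ s in (-L)..L, W₁ s * A p' (A q' H) s := by
    rw [← intervalIntegral.integral_sub (f := fun s => W₁ s * A p (A q H) s)
      (g := fun s => W₁ s * A p' (A q' H) s) ((hW₁c.mul c1).intervalIntegrable _ _)
      ((hW₁c.mul c2).intervalIntegrable _ _)]
    refine intervalIntegral.integral_congr fun s _ => ?_
    show (A p (A q H) s - A p' (A q' H) s) * W₁ s = W₁ s * A p (A q H) s - W₁ s * A p' (A q' H) s
    ring
  rw [e3, int_AAH l2 hW hW₁c (mq q hq), int_AAH l3 hW hW₁c (mq q' hq')] at e2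
  have e4 : ∫ s in (-L)..L, w s * r s = ∫ s in (-L)..L, r s * w s := by
    refine intervalIntegral.integral_congr fun s _ => mul_comm _ _
  rw [e1, e4, e2]
  ring

/-- translation -/
theorem AL_translate (l : List ℝ) (W : ℝ → ℝ) (b s : ℝ) :
    AL l (fun x => W (x + b)) s = AL l W (s + b) := by
  induction l generalizing s with
  | nil => rfl
  | cons x l ih =>
    rw [AL_cons, AL_cons]
    unfold A
    refine intervalIntegral.integral_congr fun u _ => ?_
    show AL l (fun x => W (x + b)) (s - x * u) = AL l W (s + b - x * u)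
    rw [ih]
    ring_nf

/-- **Kernel identity.** -/
theorem kernel {p q p' q' : ℝ} (hp : 0 < p) (hq : 0 ≤ q) (hp' : 0 < p') (hq' : 0 ≤ q')
    {r : ℝ → ℝ} (hr : Sh r) (hd : ∀ s, HasDerivAt r (A p (A q H) s - A p' (A q' H) s) s)
    (l : List ℝ) : ∀ {W W₁ w : ℝ → ℝ}, (∀ s, HasDerivAt W (W₁ s) s) →
    (∀ s, HasDerivAt W₁ (w s) s) → Continuous w →
    ∫ s, w s * AL l r s = AL (l ++ [p', q']) W 0 - AL (l ++ [p, q]) W 0 := by
  induction l with
  | nil =>
    intro W W₁ w hW hW₁ hw
    exact base_kernel hp hq hp' hq' hr hd hW hW₁ hw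
  | cons x l ih =>
    intro W W₁ w hW hW₁ hw
    have hWc : Continuous W := continuous_iff_continuousAt.mpr fun s => (hW s).continuousAt
    have hS := hr.AL l
    obtain ⟨L, hL⟩ := hS.supp
    rw [AL_cons, Mom.general hS.cont hL hw x]
    have h1 : ∀ u : ℝ, ∫ s, w (s + x * u) * AL l r s =
        AL (l ++ [p', q']) W (x * u) - AL (l ++ [p, q]) W (x * u) := by
      intro u
      have := ih (W := fun s => W (s + x * u)) (W₁ := fun s => W₁ (s + x * u))
        (w := fun s => w (s + x * u)) (fun s => (hW _).comp_add_const s (x * u))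
        (fun s => (hW₁ _).comp_add_const s (x * u)) (by fun_prop)
      rw [this, AL_translate, AL_translate, zero_add]
    simp_rw [h1]
    have c1 : Continuous (AL (l ++ [p', q']) W) := continuous_AL hWc _
    have c2 : Continuous (AL (l ++ [p, q]) W) := continuous_AL hWc _
    rw [intervalIntegral.integral_sub (Continuous.intervalIntegrable (by fun_prop) _ _)
      (Continuous.intervalIntegrable (by fun_prop) _ _)]
    have h2 := A_comp_mul x (AL (l ++ [p', q']) W) 0
    have h3 := A_comp_mul x (AL (l ++ [p, q]) W) 0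
    simp only [zero_add] at h2 h3
    rw [h2, h3]
    rfl

end Pool.Agent.Helper95.SP
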