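import Pool.Agent.Helper95.SP.Crude.Final
import Pool.Agent.Helper95.SP.Crude.Run9
import Pool.Agent.Helper95.SP.Crude.Run10
import Pool.Agent.Helper95.SP.Crude.Run11
import Pool.Agent.Helper95.SP.Crude.Run12
import Pool.Agent.Helper95.SP.Crude.Run13
import Pool.Agent.Helper95.SP.Crude.Run14

/-! The wave facts A and B. -/

set_option autoImplicit false

open MeasureTheory Set Real Slab Pool.Agent.Helper95.SP.Crude

namespace Pool.Agent.Helper89.SP

theorem w_DA_ne {l : List ℝ} {p q S : ℝ} (h : DA l p q S) (hp : p ≤ 0.72) (hpq : p + q ≤ 1.4) :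
    l ≠ [] := by
  rintro rfl
  have h1 := h.hsq
  have h2 := h.hqp
  have h3 := h.hq
  unfold sq at h1
  norm_num at h1 hp hpq
  nlinarith

theorem w_A_102 {l : List ℝ} {p q : ℝ} (h : DA l p q 0.952) (h0 : 0.478 ≤ p) (h1 : p ≤ 0.66) :
    PairEx l p q 1.02 := by
  have h2 := h.hqp
  have h3 := h.hq
  have hne := w_DA_ne h (h1.trans (by norm_num)) (by norm_num at h1 ⊢; linarith)
  norm_num at h0 h1
  refine ex_A (nu := 102 / 100) (K := 9) (a := 478 / 1000) (b := 66 / 100) (c := 0) (d := 66 / 100)
    h (by decide +kernel) (by norm_num) (by norm_num) le_rfl ?_ ?_ ?_ ?_ ?_ hne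
    (fun y hy e he => lineQ_ge (by norm_num) ?_ (Or.inr ?_) y hy) run_A102
  · push_cast; norm_num; linarith
  · push_cast; norm_num; linarith
  · push_cast; norm_num; linarith
  · push_cast; norm_num; linarith
  · push_cast; norm_num; linarith
  · have := (h.hl e he).2.2
    push_cast; norm_num at this ⊢; linarith
  · have := (h.hl e he).2.2
    push_cast; norm_num at this ⊢; linarith
theorem w_A_102b {l : List ℝ} {p q : ℝ} (h : DA l p q 0.95) (h0 : 0.66 ≤ p) (h1 : p ≤ 0.72)
    (h2 : p + q ≤ 1.26) : PairEx l p q 1.02 := by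
  have h2' := h.hqp
  have h3 := h.hq
  have hne := w_DA_ne h h1 (h2.trans (by norm_num))
  norm_num at h0 h1 h2
  refine ex_A (nu := 102 / 100) (K := 126 / 100) (a := 66 / 100) (b := 72 / 100) (c := 0)
    (d := 6 / 10) h (by decide +kernel) (by norm_num) (by norm_num) le_rfl ?_ ?_ ?_ ?_ ?_ hne
    (fun y hy e he => lineQ_ge (by norm_num) ?_ (Or.inr ?_) y hy) run_A102b
  · push_cast; norm_num; linarith
  · push_cast; norm_num; linarith
  · push_cast; norm_num; linarith
  · push_cast; norm_num; linarith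
  · push_cast; norm_num; linarith
  · have := (h.hl e he).2.2
    push_cast; norm_num at this ⊢; linarith
  · have := (h.hl e he).2.2
    push_cast; norm_num at this ⊢; linarith
theorem w_A_104 {l : List ℝ} {p q S : ℝ} (h : DA l p q S) (h0 : 0.478 ≤ p) (h1 : p ≤ 0.54)
    (hq : 0.475 ≤ q) (hS : p ≤ 0.49 ∨ S ≤ S1 p) : PairEx l p q 1.04 := by
  have h2 := h.hqp
  have h3 := h.hq
  have hne := w_DA_ne h (h1.trans (by norm_num)) (by norm_num at h1 ⊢; linarith)
  unfold S1 at hS
  norm_num at h0 h1 hq hS
  refine ex_A (nu := 104 / 100) (K := 9) (a := 478 / 1000) (b := 54 / 100) (c := 475 / 1000)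
    (d := 54 / 100) h (by decide +kernel) (by norm_num) (by norm_num) (by norm_num) ?_ ?_ ?_ ?_ ?_
    hne (fun y hy e he => lineQ_ge (by norm_num) ?_ ?_ y hy) run_A104
  · push_cast; norm_num; linarith
  · push_cast; norm_num; linarith
  · push_cast; norm_num; linarith
  · push_cast; norm_num; linarith
  · push_cast; norm_num; linarith
  · have := (h.hl e he).2.1
    push_cast; norm_num; linarith
  · have := (h.hl e he).2.2
    push_cast; norm_num
    rcases hS with hS | hS
    · left; linarith
    · right; linarith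
theorem w_A_106 {l : List ℝ} {p q S : ℝ} (h : DA l p q S) (h0 : 0.49 ≤ p) (h1 : p ≤ 0.54)
    (hq : 0.475 ≤ q) (hS : p ≤ 0.4975 ∨ S ≤ S2 p) : PairEx l p q 1.06 := by
  have h2 := h.hqp
  have h3 := h.hq
  have hne := w_DA_ne h (h1.trans (by norm_num)) (by norm_num at h1 ⊢; linarith)
  unfold S2 at hS
  norm_num at h0 h1 hq hS
  refine ex_A (nu := 106 / 100) (K := 9) (a := 49 / 100) (b := 54 / 100) (c := 475 / 1000)
    (d := 54 / 100) h (by decide +kernel) (by norm_num) (by norm_num) (by norm_num) ?_ ?_ ?_ ?_ ?_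
    hne (fun y hy e he => lineQ_ge (by norm_num) ?_ ?_ y hy) run_A106
  · push_cast; norm_num; linarith
  · push_cast; norm_num; linarith
  · push_cast; norm_num; linarith
  · push_cast; norm_num; linarith
  · push_cast; norm_num; linarith
  · have := (h.hl e he).2.1
    push_cast; norm_num; linarith
  · have := (h.hl e he).2.2
    push_cast; norm_num
    rcases hS with hS | hS
    · left; linarith
    · right; linarith
theorem w_A_108 {l : List ℝ} {p q S : ℝ} (h : DA l p q S) (h0 : 0.4975 ≤ p) (h1 : p ≤ 0.54)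
    (hq : 0.475 ≤ q) (hS : p ≤ 0.5065 ∨ S ≤ S3 p) : PairEx l p q 1.08 := by
  have h2 := h.hqp
  have h3 := h.hq
  have hne := w_DA_ne h (h1.trans (by norm_num)) (by norm_num at h1 ⊢; linarith)
  unfold S3 at hS
  norm_num at h0 h1 hq hS
  refine ex_A (nu := 108 / 100) (K := 9) (a := 4975 / 10000) (b := 54 / 100) (c := 475 / 1000)
    (d := 54 / 100) h (by decide +kernel) (by norm_num) (by norm_num) (by norm_num) ?_ ?_ ?_ ?_ ?_
    hne (fun y hy e he => lineQ_ge (by norm_num) ?_ ?_ y hy) run_A108
  · push_cast; norm_num; linarith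
  · push_cast; norm_num; linarith
  · push_cast; norm_num; linarith
  · push_cast; norm_num; linarith
  · push_cast; norm_num; linarith
  · have := (h.hl e he).2.1
    push_cast; norm_num; linarith
  · have := (h.hl e he).2.2
    push_cast; norm_num
    rcases hS with hS | hS
    · left; linarith
    · right; linarith
theorem w_A_110 {l : List ℝ} {p q S : ℝ} (h : DA l p q S) (h0 : 0.5065 ≤ p) (h1 : p ≤ 0.54)
    (hq : 0.475 ≤ q) (hS : p ≤ 0.5125 ∨ S ≤ S4 p) : PairEx l p q 1.1 := by
  have h2 := h.hqp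
  have h3 := h.hq
  have hne := w_DA_ne h (h1.trans (by norm_num)) (by norm_num at h1 ⊢; linarith)
  unfold S4 at hS
  norm_num at h0 h1 hq hS
  refine ex_A (nu := 11 / 10) (K := 9) (a := 5065 / 10000) (b := 54 / 100) (c := 475 / 1000)
    (d := 54 / 100) h (by decide +kernel) (by norm_num) (by norm_num) (by norm_num) ?_ ?_ ?_ ?_ ?_
    hne (fun y hy e he => lineQ_ge (by norm_num) ?_ ?_ y hy) run_A110
  · push_cast; norm_num; linarith
  · push_cast; norm_num; linarith
  · push_cast; norm_num; linarith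
  · push_cast; norm_num; linarith
  · push_cast; norm_num; linarith
  · have := (h.hl e he).2.1
    push_cast; norm_num; linarith
  · have := (h.hl e he).2.2
    push_cast; norm_num
    rcases hS with hS | hS
    · left; linarith
    · right; linarith
theorem w_A_120 {l : List ℝ} {p q : ℝ} (h : DA l p q 1.0) (h0 : 0.5125 ≤ p) (h1 : p ≤ 0.5275)
    (hq : 0.475 ≤ q) : PairEx l p q 1.2 := by
  have h2 := h.hqp
  have h3 := h.hq
  have hne := w_DA_ne h (h1.trans (by norm_num)) (by norm_num at h1 ⊢; linarith)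
  norm_num at h0 h1 hq
  refine ex_A (nu := 12 / 10) (K := 9) (a := 5125 / 10000) (b := 5275 / 10000) (c := 475 / 1000)
    (d := 5275 / 10000) h (by decide +kernel) (by norm_num) (by norm_num) (by norm_num)
    ?_ ?_ ?_ ?_ ?_ hne (fun y hy e he => lineQ_ge (by norm_num) ?_ (Or.inr ?_) y hy) run_A120
  · push_cast; norm_num; linarith
  · push_cast; norm_num; linarith
  · push_cast; norm_num; linarith
  · push_cast; norm_num; linarith
  · push_cast; norm_num; linarith
  · have := (h.hl e he).2.2
    push_cast; norm_num at this ⊢; linarith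
  · have := (h.hl e he).2.2
    push_cast; norm_num at this ⊢; linarith
theorem w_A_120b {l : List ℝ} {p q : ℝ} (h : DA l p q (S5 p)) (h0 : 0.5275 ≤ p) (h1 : p ≤ 0.58)
    (hq : 0.475 ≤ q) : PairEx l p q 1.2 := by
  have h2 := h.hqp
  have h3 := h.hq
  have hne := w_DA_ne h (h1.trans (by norm_num)) (by norm_num at h1 ⊢; linarith)
  norm_num at h0 h1 hq
  refine ex_A (nu := 12 / 10) (K := 9) (a := 5275 / 10000) (b := 58 / 100) (c := 475 / 1000)
    (d := 58 / 100) h (by decide +kernel) (by norm_num) (by norm_num) (by norm_num)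
    ?_ ?_ ?_ ?_ ?_ hne (fun y hy e he => lineQ_ge (by norm_num) ?_ (Or.inr ?_) y hy) run_A120b
  · push_cast; norm_num; linarith
  · push_cast; norm_num; linarith
  · push_cast; norm_num; linarith
  · push_cast; norm_num; linarith
  · push_cast; norm_num; linarith
  · have := (h.hl e he).2.1
    push_cast; norm_num; linarith
  · have := (h.hl e he).2.2
    unfold S5 at this
    push_cast; norm_num at this ⊢; linarith

theorem w_B_120 {l : List ℝ} {p q r : ℝ} (h : DB l p q r) (h0 : 0.5125 ≤ p) (h1 : p ≤ 0.5275)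
    (hS : 1.0 ≤ q + r) : PairEx (q :: l) p r 1.2 := by
  have h2 := h.hr
  have h3 := h.hrq
  have h4 := h.hqp
  norm_num at h0 h1 hS
  refine ex_B (nu := 12 / 10) (a := 5125 / 10000) (b := 5275 / 10000) (c := 47 / 100)
    (d := 5275 / 10000) (e := 47 / 100) (f := 5275 / 10000) h (by decide +kernel) (by norm_num)
    (by norm_num) (by norm_num) (by norm_num) ?_ ?_ ?_ ?_ ?_ ?_ (noQ_ge ?_) ?_ run_B120
  · push_cast; norm_num; linarith
  · push_cast; norm_num; linarith
  · push_cast; norm_num; linarith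
  · push_cast; norm_num; linarith
  · push_cast; norm_num; linarith
  · push_cast; norm_num; linarith
  · linarith
  · intro y hy
    unfold lineQ
    have h5 : ¬ y ≤ 0 := by
      intro h6
      have : (y : ℝ) ≤ 0 := by exact_mod_cast h6
      linarith
    rw [if_neg h5]
    push_cast
    linarith
theorem w_B_135 {l : List ℝ} {p q r : ℝ} (h : DB l p q r) (h0 : 0.5275 ≤ p) (h1 : p ≤ 0.57)
    (hS : S5 p ≤ q + r) (hS2 : p ≤ 0.535 ∨ q + r ≤ S6 p) : PairEx (q :: l) p r 1.35 := by
  have h2 := h.hr
  have h3 := h.hrq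
  have h4 := h.hqp
  unfold S5 at hS
  unfold S6 at hS2
  norm_num at h0 h1 hS hS2
  refine ex_B (nu := 135 / 100) (a := 5275 / 10000) (b := 57 / 100) (c := 4 / 10)
    (d := 57 / 100) (e := 45 / 100) (f := 57 / 100) h (by decide +kernel) (by norm_num)
    (by norm_num) (by norm_num) (by norm_num) ?_ ?_ ?_ ?_ ?_ ?_
    (lineQ_ge (by norm_num) ?_ ?_) ?_ run_B135
  · push_cast; norm_num; linarith
  · push_cast; norm_num; linarith
  · push_cast; norm_num; linarith
  · push_cast; norm_num; linarith
  · push_cast; norm_num; linarith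
  · push_cast; norm_num; linarith
  · push_cast; norm_num; linarith
  · push_cast; norm_num
    rcases hS2 with hS2 | hS2
    · left; linarith
    · right; linarith
  · intro y hy
    unfold lineQ
    have h5 : ¬ y ≤ 0 := by
      intro h6
      have : (y : ℝ) ≤ 0 := by exact_mod_cast h6
      linarith
    rw [if_neg h5]
    push_cast
    linarith

end Pool.Agent.Helper89.SP
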