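import Pool.Agent.Helper95.SP.WaveM
import Pool.Agent.Helper95.SP.WaveA

/-! All wave facts. -/
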