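import Mathlib

/-!
Poisson summation for an even continuous function of compact support with summable transform.
-/

set_option autoImplicit false

namespace Pool.Agent.Helper95.SP

open MeasureTheory Set Real Filter Topology
open scoped FourierTransform

/-- the cosine transform -/
noncomputable def ct (R : ℝ → ℝ) (ω : ℝ) : ℝ := ∫ s, cos (ω * s) * R s

theorem ct_neg (R : ℝ → ℝ) (ω : ℝ) : ct R (-ω) = ct R ω := by
  unfold ct
  congr 1
  ext s
  rw [neg_mul, cos_neg]

theorem integrable_mul_cs {R w : ℝ → ℝ} (hc : Continuous R) (hw : Continuous w) {L : ℝ}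
    (hs : ∀ s, L ≤ |s| → R s = 0) : Integrable (fun s => w s * R s) := by
  apply Continuous.integrable_of_hasCompactSupport (hw.mul hc)
  apply HasCompactSupport.mul_left
  apply HasCompactSupport.intro (K := Icc (-|L|) |L|) isCompact_Icc
  intro s hsn
  apply hs
  by_contra hcon
  push Not at hcon
  apply hsn
  exact abs_le.mp (hcon.le.trans (le_abs_self L))

theorem fourier_eq_ct {R : ℝ → ℝ} (hc : Continuous R) (he : ∀ s, R (-s) = R s) {L : ℝ}
    (hs : ∀ s, L ≤ |s| → R s = 0) {P : ℝ} (hP : 0 < P) (ξ : ℝ) :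
    𝓕 (fun y : ℝ => ((R (P * y) : ℝ) : ℂ)) ξ = ((1 / P * ct R (2 * π * ξ / P) : ℝ) : ℂ) := by
  rw [Real.fourier_real_eq_integral_exp_smul]
  have h1 : ∫ v : ℝ, Complex.exp (↑(-2 * π * v * ξ) * Complex.I) • ((R (P * v) : ℝ) : ℂ) =
      ((1 / P : ℝ) : ℂ) * ∫ s : ℝ, Complex.exp (↑(-2 * π * ξ / P * s) * Complex.I) * ((R s : ℝ) : ℂ) := by
    have h2 := Measure.integral_comp_mul_left
      (fun s : ℝ => Complex.exp (↑(-2 * π * ξ / P * s) * Complex.I) * ((R s : ℝ) : ℂ)) P
    rw [abs_of_pos (by positivity)] at h2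
    rw [one_div, ← Complex.real_smul, ← h2]
    congr 1
    ext v
    rw [smul_eq_mul]
    congr 3
    push_cast
    have : (P : ℂ) ≠ 0 := by exact_mod_cast hP.ne'
    field_simp
  rw [h1]
  have h3 : ∀ s : ℝ, Complex.exp (↑(-2 * π * ξ / P * s) * Complex.I) * ((R s : ℝ) : ℂ) =
      ((cos (2 * π * ξ / P * s) * R s : ℝ) : ℂ) - Complex.I * ((sin (2 * π * ξ / P * s) * R s : ℝ) : ℂ) := by
    intro s
    rw [Complex.exp_mul_I]
    have e1 : -2 * π * ξ / P * s = -(2 * π * ξ / P * s) := by ring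
    rw [e1]
    push_cast
    rw [Complex.cos_neg, Complex.sin_neg]
    ring
  simp_rw [h3]
  have i1 : Integrable (fun s => ((cos (2 * π * ξ / P * s) * R s : ℝ) : ℂ)) :=
    (integrable_mul_cs hc (w := fun s => cos (2 * π * ξ / P * s)) (by fun_prop) hs).ofReal
  have i2 : Integrable (fun s => ((sin (2 * π * ξ / P * s) * R s : ℝ) : ℂ)) :=
    (integrable_mul_cs hc (w := fun s => sin (2 * π * ξ / P * s)) (by fun_prop) hs).ofReal
  rw [integral_sub i1 (i2.const_mul _), integral_const_mul, integral_complex_ofReal,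
    integral_complex_ofReal]
  have h4 : ∫ s, sin (2 * π * ξ / P * s) * R s = 0 := by
    have h5 := integral_neg_eq_self (fun s => sin (2 * π * ξ / P * s) * R s) volume
    have h6 : ∫ s, sin (2 * π * ξ / P * -s) * R (-s) = -∫ s, sin (2 * π * ξ / P * s) * R s := by
      rw [← integral_neg]
      congr 1
      ext s
      rw [he, mul_neg, sin_neg]
      ring
    linarith
  rw [h4]
  unfold ct
  push_cast
  ring

theorem comb {R : ℝ → ℝ} (hc : Continuous R) (he : ∀ s, R (-s) = R s) {L : ℝ}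
    (hs : ∀ s, L ≤ |s| → R s = 0) {P : ℝ} (hP : 0 < P)
    (hsum : Summable fun k : ℤ => ct R (2 * π * k / P)) (x : ℝ) :
    ∑' j : ℤ, R (x + j * P) =
      1 / P * ∑' k : ℤ, ct R (2 * π * k / P) * cos (2 * π * k / P * x) := by
  set f : ℝ → ℂ := fun y => ((R (P * y) : ℝ) : ℂ) with hf
  have hfc : Continuous f := by
    simp only [hf]; fun_prop
  have hF : ∀ ξ, 𝓕 f ξ = ((1 / P * ct R (2 * π * ξ / P) : ℝ) : ℂ) := fourier_eq_ct hc he hs hP
  have hO : Asymptotics.IsBigO (cocompact ℝ) f fun x : ℝ => |x| ^ (-(2:ℝ)) := by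
    apply Asymptotics.IsBigO.of_bound 0
    have : ∀ᶠ y in cocompact ℝ, y ∉ Icc (-|L / P|) |L / P| :=
      isCompact_Icc.compl_mem_cocompact
    filter_upwards [this] with y hy
    have h1 : |L / P| < |y| := by
      by_contra hcon
      push Not at hcon
      exact hy (abs_le.mp hcon)
    have h2 : L ≤ |P * y| := by
      rw [abs_mul, abs_of_pos hP]
      rw [abs_div, abs_of_pos hP, div_lt_iff₀ hP] at h1
      linarith [le_abs_self L]
    simp only [hf]
    rw [hs _ h2]
    simp
  have hS : Summable fun n : ℤ => 𝓕 f n := by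
    simp_rw [hF]
    exact Complex.summable_ofReal.mpr (hsum.mul_left (1 / P))
  have key := Real.tsum_eq_tsum_fourier_of_rpow_decay_of_summable hfc one_lt_two hO hS (x / P)
  have e1 : ∀ n : ℤ, f (x / P + n) = ((R (x + n * P) : ℝ) : ℂ) := by
    intro n
    simp only [hf]
    congr 2
    field_simp
  simp_rw [e1] at key
  have e2 : ∀ n : ℤ, (𝓕 f n * fourier n ((x / P : ℝ) : UnitAddCircle)).re =
      1 / P * (ct R (2 * π * n / P) * cos (2 * π * n / P * x)) := by
    intro n
    rw [hF, fourier_coe_apply, Complex.re_ofReal_mul]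
    have : (2 * π * Complex.I * n * ((x / P : ℝ) : ℂ) / ((1:ℝ) : ℂ)) =
        ((2 * π * n / P * x : ℝ) : ℂ) * Complex.I := by
      push_cast; ring
    rw [this, Complex.exp_ofReal_mul_I_re]
    ring
  have hsum2 : Summable fun n : ℤ => 𝓕 f n * fourier n ((x / P : ℝ) : UnitAddCircle) := by
    apply Summable.of_norm
    have := hS.norm
    refine this.congr fun n => ?_
    rw [norm_mul, fourier_coe_apply]
    have : (2 * π * Complex.I * n * ((x / P : ℝ) : ℂ) / ((1:ℝ) : ℂ)) =
        ((2 * π * n / P * x : ℝ) : ℂ) * Complex.I := by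
      push_cast; ring
    rw [this, Complex.norm_exp_ofReal_mul_I, mul_one]
  have key2 := congrArg Complex.re key
  rw [← Complex.ofReal_tsum, Complex.ofReal_re, Complex.re_tsum hsum2] at key2
  simp_rw [e2] at key2
  rw [key2, tsum_mul_left]

end Pool.Agent.Helper95.SP
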