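import Pool.Agent.Helper95.SP.Comb
import Pool.Agent.Helper95.SP.Far

/-!
The comb identities for the kernel `R = AL l r`.
-/

set_option autoImplicit false

namespace Pool.Agent.Helper95.SP

open MeasureTheory Set Slab Real Filter Topology

/-- summability of the shifts of a function of compact support -/
theorem summable_shift {R : ℝ → ℝ} {L : ℝ} (hs : ∀ s, L ≤ |s| → R s = 0) {P : ℝ} (hP : 0 < P)
    (x : ℝ) : Summable fun n : ℕ => R (P * ((n : ℝ) + 1) + x) := by
  apply summable_of_hasFiniteSupport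
  obtain ⟨N, hN⟩ := exists_nat_gt ((|L| + |x|) / P)
  apply Set.Finite.subset (Finset.range N).finite_toSet
  intro n hn
  rw [Function.mem_support] at hn
  by_contra hcon
  apply hn
  apply hs
  have h1 : N ≤ n := by simpa using hcon
  have h2 : (N : ℝ) ≤ n := by exact_mod_cast h1
  rw [div_lt_iff₀ hP] at hN
  have h3 : |L| + |x| ≤ P * ((n : ℝ) + 1) := by nlinarith
  have h4 := le_abs_self (P * ((n : ℝ) + 1) + x)
  have h5 := neg_abs_le x
  linarith [le_abs_self L]

theorem comb_nat {R : ℝ → ℝ} (hc : Continuous R) (he : ∀ s, R (-s) = R s) {L : ℝ}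
    (hs : ∀ s, L ≤ |s| → R s = 0) {P : ℝ} (hP : 0 < P)
    (hsum : Summable fun n : ℕ => ct R (2 * π / P * ((n : ℝ) + 1))) (x : ℝ) :
    R x + (∑' n : ℕ, R (P * ((n : ℝ) + 1) + x)) + (∑' n : ℕ, R (P * ((n : ℝ) + 1) - x)) =
      1 / P * (ct R 0 + 2 * ∑' n : ℕ, ct R (2 * π / P * ((n : ℝ) + 1)) *
        cos (2 * π / P * ((n : ℝ) + 1) * x)) := by
  have e0 : ∀ n : ℕ, ct R (2 * π * (((n : ℤ) + 1 : ℤ) : ℝ) / P) = ct R (2 * π / P * ((n : ℝ) + 1)) := by
    intro n; congr 1; push_cast; ring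
  have e0' : ∀ n : ℕ, ct R (2 * π * ((-((n : ℤ) + 1) : ℤ) : ℝ) / P) =
      ct R (2 * π / P * ((n : ℝ) + 1)) := by
    intro n; rw [← ct_neg]; congr 1; push_cast; ring
  have hsZ : Summable fun k : ℤ => ct R (2 * π * k / P) := by
    apply Summable.of_add_one_of_neg_add_one
    · exact hsum.congr fun n => (e0 n).symm
    · exact hsum.congr fun n => (e0' n).symm
  have key := comb hc he hs hP hsZ x
  have s1 : Summable fun n : ℕ => R (P * ((n : ℝ) + 1) + x) := summable_shift hs hP x
  have s2 : Summable fun n : ℕ => R (P * ((n : ℝ) + 1) - x) := by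
    have := summable_shift hs hP (-x)
    exact this
  have f1 : ∀ n : ℕ, R (x + (((n : ℤ) + 1 : ℤ) : ℝ) * P) = R (P * ((n : ℝ) + 1) + x) := by
    intro n; congr 1; push_cast; ring
  have f2 : ∀ n : ℕ, R (x + ((-((n : ℤ) + 1) : ℤ) : ℝ) * P) = R (P * ((n : ℝ) + 1) - x) := by
    intro n; rw [← he]; congr 1; push_cast; ring
  have t1 := tsum_of_add_one_of_neg_add_one (f := fun j : ℤ => R (x + j * P))
    (s1.congr fun n => (f1 n).symm) (s2.congr fun n => (f2 n).symm)
  simp_rw [f1, f2] at t1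
  rw [t1] at key
  have b1 : Summable fun n : ℕ => ct R (2 * π / P * ((n : ℝ) + 1)) *
      cos (2 * π / P * ((n : ℝ) + 1) * x) := by
    refine Summable.of_norm_bounded hsum.norm fun n => ?_
    rw [norm_mul]
    exact mul_le_of_le_one_right (norm_nonneg _) (abs_cos_le_one _)
  have g1 : ∀ n : ℕ, ct R (2 * π * (((n : ℤ) + 1 : ℤ) : ℝ) / P) *
      cos (2 * π * (((n : ℤ) + 1 : ℤ) : ℝ) / P * x) =
      ct R (2 * π / P * ((n : ℝ) + 1)) * cos (2 * π / P * ((n : ℝ) + 1) * x) := by
    intro n; rw [e0]; congr 2; push_cast; ring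
  have g2 : ∀ n : ℕ, ct R (2 * π * ((-((n : ℤ) + 1) : ℤ) : ℝ) / P) *
      cos (2 * π * ((-((n : ℤ) + 1) : ℤ) : ℝ) / P * x) =
      ct R (2 * π / P * ((n : ℝ) + 1)) * cos (2 * π / P * ((n : ℝ) + 1) * x) := by
    intro n; rw [e0', ← cos_neg]; congr 2; push_cast; ring
  have t2 := tsum_of_add_one_of_neg_add_one
    (f := fun k : ℤ => ct R (2 * π * k / P) * cos (2 * π * k / P * x))
    (b1.congr fun n => (g1 n).symm) (b1.congr fun n => (g2 n).symm)
  simp_rw [g1, g2] at t2
  rw [t2] at key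
  simp only [Int.cast_zero, mul_zero, zero_div, zero_mul, add_zero, cos_zero, mul_one] at key
  linarith

/-- product of `sinc` over a list -/
noncomputable def PP (l : List ℝ) (ω : ℝ) : ℝ := (l.map fun x => sinc (ω * x)).prod

/-- the bracket -/
noncomputable def BB (p q c ω : ℝ) : ℝ := sinc (ω * c) ^ 2 - sinc (ω * p) * sinc (ω * q)

theorem A_cos (x m s : ℝ) : A x (fun s => cos (m * s)) s = 2 * sinc (m * x) * cos (m * s) := by
  unfold A
  by_cases h : m * x = 0
  · have e : ∀ u : ℝ, cos (m * (s - x * u)) = cos (m * s) := by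
      intro u
      have : m * (s - x * u) = m * s - m * x * u := by ring
      rw [this, h]; ring_nf
    simp_rw [e]
    rw [h, sinc_zero]
    simp
    norm_num
  · have hd : ∀ u : ℝ, HasDerivAt (fun u => -sin (m * (s - x * u)) / (m * x))
        (cos (m * (s - x * u))) u := by
      intro u
      have h1 : HasDerivAt (fun u => m * (s - x * u)) (-(m * x)) u := by
        have := (((hasDerivAt_id u).const_mul x).const_sub s).const_mul m
        refine this.congr_deriv ?_
        ring
      have h2 := (h1.sin.neg).div_const (m * x)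
      refine h2.congr_deriv ?_
      rw [mul_neg, neg_neg, mul_div_assoc, div_self h, mul_one]
    rw [intervalIntegral.integral_eq_sub_of_hasDerivAt (fun u _ => hd u)
      (Continuous.intervalIntegrable (by fun_prop) _ _), sinc_of_ne_zero h]
    have e1 : m * (s - x * 1) = m * s - m * x := by ring
    have e2 : m * (s - x * -1) = m * s + m * x := by ring
    rw [e1, e2, sin_sub, sin_add]
    field_simp
    ring

theorem AL_cos (l : List ℝ) (m s : ℝ) :
    AL l (fun s => cos (m * s)) s = 2 ^ l.length * PP l m * cos (m * s) := by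
  induction l generalizing s with
  | nil => simp [AL_nil, PP]
  | cons x l ih =>
    rw [AL_cons]
    have : AL l (fun s => cos (m * s)) = fun s => 2 ^ l.length * PP l m * cos (m * s) := funext ih
    rw [this]
    have h2 : A x (fun s => 2 ^ l.length * PP l m * cos (m * s)) s =
        2 ^ l.length * PP l m * A x (fun s => cos (m * s)) s := by
      unfold A
      rw [← intervalIntegral.integral_const_mul]
    rw [h2, A_cos]
    unfold PP
    rw [List.map_cons, List.prod_cons, List.length_cons]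
    ring

/-- the cosine transform of the kernel -/
theorem ct_R {p q c : ℝ} (hp : 0 < p) (hq : 0 ≤ q) (hc0 : 0 < c)
    {r : ℝ → ℝ} (hr : Sh r) (hd : ∀ s, HasDerivAt r (A p (A q H) s - A c (A c H) s) s)
    (l : List ℝ) (ω : ℝ) :
    ct (AL l r) ω = -(2 ^ (l.length + 2) * (PP l ω * BB p q c ω / ω ^ 2)) := by
  by_cases hω : ω = 0
  · subst hω
    unfold ct
    simp [(hr.AL l).int0]
  · have h := kernel hp hq hc0 hc0.le hr hd l (W := fun s => -1 / ω ^ 2 * cos (ω * s))
      (W₁ := fun s => 1 / ω * sin (ω * s)) (w := fun s => cos (ω * s)) ?_ ?_ (by fun_prop)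
    · unfold ct
      rw [h, AL_const_mul, AL_const_mul, AL_cos, AL_cos]
      unfold PP BB
      simp only [List.map_append, List.prod_append, List.map_cons, List.map_nil, List.prod_cons,
        List.prod_nil, mul_zero, cos_zero, mul_one, List.length_append, List.length_cons,
        List.length_nil]
      field_simp
      ring
    · intro s
      have h1 : HasDerivAt (fun s : ℝ => ω * s) ω s := by
        simpa using (hasDerivAt_id s).const_mul ω
      refine (h1.cos.const_mul (-1 / ω ^ 2)).congr_deriv ?_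
      field_simp
    · intro s
      have h1 : HasDerivAt (fun s : ℝ => ω * s) ω s := by
        simpa using (hasDerivAt_id s).const_mul ω
      refine (h1.sin.const_mul (1 / ω)).congr_deriv ?_
      field_simp

theorem abs_PP_le (l : List ℝ) (ω : ℝ) : |PP l ω| ≤ 1 := by
  unfold PP
  induction l with
  | nil => simp
  | cons x l ih =>
    rw [List.map_cons, List.prod_cons, abs_mul]
    exact mul_le_one₀ (abs_sinc_le_one _) (abs_nonneg _) ih

theorem abs_BB_le (p q c ω : ℝ) : |BB p q c ω| ≤ 2 := by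
  unfold BB
  have h1 := abs_sinc_le_one (ω * c)
  have h2 := abs_sinc_le_one (ω * p)
  have h3 := abs_sinc_le_one (ω * q)
  have h4 : |sinc (ω * c) ^ 2| ≤ 1 := by
    rw [abs_pow]; exact pow_le_one₀ (abs_nonneg _) h1
  have h5 : |sinc (ω * p) * sinc (ω * q)| ≤ 1 := by
    rw [abs_mul]; exact mul_le_one₀ h2 (abs_nonneg _) h3
  rw [abs_le] at h4 h5 ⊢
  constructor <;> linarith [h4.1, h4.2, h5.1, h5.2]

theorem summable_inv_sq (a : ℝ) : Summable fun n : ℕ => a / ((n : ℝ) + 1) ^ 2 := by
  have h := (summable_nat_add_iff 1).mpr (Real.summable_one_div_nat_pow.mpr (one_lt_two))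
  have := h.mul_left a
  refine this.congr fun n => ?_
  push_cast
  ring

theorem summable_ct {p q c : ℝ} (hp : 0 < p) (hq : 0 ≤ q) (hc0 : 0 < c)
    {r : ℝ → ℝ} (hr : Sh r) (hd : ∀ s, HasDerivAt r (A p (A q H) s - A c (A c H) s) s)
    (l : List ℝ) {b : ℝ} (hb : 0 < b) :
    Summable fun n : ℕ => ct (AL l r) (b * ((n : ℝ) + 1)) := by
  refine Summable.of_norm_bounded (summable_inv_sq (2 ^ (l.length + 2) * (2 / b ^ 2))) fun n => ?_
  rw [ct_R hp hq hc0 hr hd l, norm_neg, norm_mul, norm_div, norm_mul]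
  have h1 := abs_PP_le l (b * ((n : ℝ) + 1))
  have h2 := abs_BB_le p q c (b * ((n : ℝ) + 1))
  have h3 : ‖PP l (b * ((n : ℝ) + 1))‖ * ‖BB p q c (b * ((n : ℝ) + 1))‖ ≤ 1 * 2 :=
    mul_le_mul h1 h2 (norm_nonneg _) (by norm_num)
  have h4 : (0:ℝ) < (n : ℝ) + 1 := by positivity
  have h5 : ‖(b * ((n : ℝ) + 1)) ^ 2‖ = b ^ 2 * ((n : ℝ) + 1) ^ 2 := by
    rw [Real.norm_of_nonneg (by positivity)]; ring
  have h6 : ‖(2:ℝ) ^ (l.length + 2)‖ = 2 ^ (l.length + 2) := Real.norm_of_nonneg (by positivity)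
  rw [h5, h6]
  calc (2:ℝ) ^ (l.length + 2) * (‖PP l (b * ((n : ℝ) + 1))‖ * ‖BB p q c (b * ((n : ℝ) + 1))‖ /
        (b ^ 2 * ((n : ℝ) + 1) ^ 2))
      ≤ 2 ^ (l.length + 2) * (1 * 2 / (b ^ 2 * ((n : ℝ) + 1) ^ 2)) := by gcongr
    _ = _ := by field_simp

end Pool.Agent.Helper95.SP
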