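import Pool.Agent.Helper95.SP.Pair

/-!
The even fact and the exclusion of a pair.
-/

set_option autoImplicit false

namespace Pool.Agent.Helper95.SP

open MeasureTheory Set Slab Real Filter Topology

/-- single crossing -/
theorem _root_.Slab.Sh.crossing {R : ℝ → ℝ} (hS : Sh R) {u v : ℝ} (hu : 0 ≤ u) (huv : u < v)
    (hpos : 0 < R u) (hlt : R v < R u) : ∃ z, z < v ∧ AntitoneOn R (Ici z) := by
  obtain ⟨s₁, z, hs10, hs1z, hneg, hpos', hmono, hanti⟩ := hS.shape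
  refine ⟨z, ?_, hanti⟩
  by_contra hcon
  push Not at hcon
  have h1 : s₁ ≤ u := by
    by_contra h
    push Not at h
    linarith [hneg u hu h.le]
  have h2 : R u ≤ R v := hmono ⟨h1, huv.le.trans hcon⟩ ⟨h1.trans huv.le, hcon⟩ huv.le
  linarith

namespace Ker

variable {p q c : ℝ} {l : List ℝ} {r : ℝ → ℝ}

theorem far_even (K : Ker p q c l r) {t : ℝ} (ht : 1.031 ≤ t) :
    (∑' n : ℕ, AL l r (2 * t * ((n : ℝ) + 1) + (t - 1 / 1000))) +
      (∑' n : ℕ, AL l r (2 * t * ((n : ℝ) + 1) - (t - 1 / 1000))) ≤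
    AL l r (t + 1 / 1000) + 2 ^ (l.length + 2) * ((p ^ 2 - q ^ 2) ^ 2 * (2.1 / 10 ^ 5)) := by
  obtain ⟨L, hL⟩ := K.sh.supp
  have h2t : 0 < 2 * t := by linarith
  have s1 : Summable fun n : ℕ => AL l r (2 * t * ((n : ℝ) + 1) + (t - 1 / 1000)) :=
    summable_shift hL h2t _
  have s2 : Summable fun n : ℕ => AL l r (2 * t * ((n : ℝ) + 1) - (t - 1 / 1000)) :=
    summable_shift hL h2t (-(t - 1 / 1000))
  have d0 : 0 ≤ (p ^ 2 - q ^ 2) ^ 2 := K.dpos.le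
  have t1 := K.tail_sum (P := 2 * t) (x := 3 * t - 1 / 1000) (by linarith) (by linarith)
  have t2 := K.tail_sum (P := 2 * t) (x := 3 * t + 1 / 1000) (by linarith) (by linarith)
  have e1 : ∑' n : ℕ, AL l r (2 * t * ((n : ℝ) + 1) + (t - 1 / 1000)) =
      AL l r (3 * t - 1 / 1000) + ∑' n : ℕ, AL l r (2 * t * ((n : ℝ) + 1) + (3 * t - 1 / 1000)) := by
    rw [s1.tsum_eq_zero_add]
    congr 1
    · congr 1; push_cast; ring
    · congr 1; ext n; congr 1; push_cast; ring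
  have e2 : ∑' n : ℕ, AL l r (2 * t * ((n : ℝ) + 1) - (t - 1 / 1000)) =
      AL l r (t + 1 / 1000) + (AL l r (3 * t + 1 / 1000) +
        ∑' n : ℕ, AL l r (2 * t * ((n : ℝ) + 1) + (3 * t + 1 / 1000))) := by
    have s3 : Summable fun n : ℕ => AL l r (2 * t * (((n + 1 : ℕ) : ℝ) + 1) - (t - 1 / 1000)) :=
      (summable_nat_add_iff 1).mpr s2
    rw [s2.tsum_eq_zero_add, s3.tsum_eq_zero_add]
    congr 1
    · congr 1; push_cast; ring
    · congr 1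
      · congr 1; push_cast; ring
      · congr 1; ext n; congr 1; push_cast; ring
  have b1 := far_three K.hp K.hq K.hc0 K.hc K.hr K.hd K.h2 K.h4 l K.hl
    (y := 3 * t - 1 / 1000) (by linarith)
  have b2 := far_three K.hp K.hq K.hc0 K.hc K.hr K.hd K.h2 K.h4 l K.hl
    (y := 3 * t + 1 / 1000) (by linarith)
  rw [e1, e2]
  set N : ℝ := 2 ^ (l.length + 2) with hN
  have hN0 : 0 < N := by positivity
  have hNd : 0 ≤ N * (p ^ 2 - q ^ 2) ^ 2 := by positivity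
  have e3 : N * ((p ^ 2 - q ^ 2) ^ 2 * (2.1 / 10 ^ 5)) = N * (p ^ 2 - q ^ 2) ^ 2 * (2.1 / 10 ^ 5) := by
    ring
  have e4 : N * ((p ^ 2 - q ^ 2) ^ 2 * (1.001 / 10 ^ 12)) =
    N * (p ^ 2 - q ^ 2) ^ 2 * (1.001 / 10 ^ 12) := by ring
  have e5 : N * ((p ^ 2 - q ^ 2) ^ 2 / 10 ^ 5) = N * (p ^ 2 - q ^ 2) ^ 2 * (1 / 10 ^ 5) := by ring
  rw [e3]
  rw [e4] at t1 t2
  rw [e5] at b1 b2
  nlinarith

/-- the even fact -/
theorem even_fact (K : Ker p q c l r) {t : ℝ} (ht : 1.031 ≤ t)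
    (h2' : 0 ≤ PB l p q c (2 * (π / (2 * t)))) {T4 : ℝ}
    (hT4 : ∀ m : ℕ, ∑ i ∈ Finset.range m, |PB l p q c ((2 * (i : ℝ) + 4) * (π / (2 * t)))| /
      (2 * (i : ℝ) + 4) ^ 2 ≤ T4)
    (H : T4 + 1 / 10 ^ 4 * (p ^ 2 - q ^ 2) ^ 2 ≤
      (1 - 1 / 10 ^ 5) * PB l p q c (2 * (π / (2 * t))) / 4)
    (hlt : AL l r (t + 1 / 1000) < AL l r (t - 1 / 1000)) :
    0 < AL l r (t - 1 / 1000) := by
  have ht0 : 0 < t := by linarith
  have hθ0 : 0 < π / t := by positivity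
  have hπ : π < 3.15 := pi_lt_d2
  have hθ1 : π / t ≤ 3.06 := by
    rw [div_le_iff₀ ht0]
    nlinarith
  have hω : 2 * (π / (2 * t)) = π / t := by field_simp
  have id := K.even_identity (h := 1 / 1000) ht0
  have fe := K.far_even ht
  rw [hω] at h2' H
  set φ : ℝ := π / t with hφ
  set g : ℕ → ℝ := fun n => PB l p q c (φ * ((n : ℝ) + 1)) / (φ * ((n : ℝ) + 1)) ^ 2 *
    ((-1) ^ n * cos (φ * ((n : ℝ) + 1) * (1 / 1000))) with hg
  have habs : ∀ n : ℕ, |(-1 : ℝ) ^ n * cos (φ * ((n : ℝ) + 1) * (1 / 1000))| ≤ 1 := by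
    intro n
    rw [abs_mul, abs_pow, abs_neg, abs_one, one_pow, one_mul]
    exact abs_cos_le_one _
  have hgb : ∀ n, |g n| ≤ 2 / φ ^ 2 / ((n : ℝ) + 1) ^ 2 := by
    intro n
    have hn : (0:ℝ) < (n : ℝ) + 1 := by positivity
    simp only [hg]
    rw [abs_mul, abs_div, abs_of_pos (by positivity : 0 < (φ * ((n : ℝ) + 1)) ^ 2)]
    have b1 := abs_PB_le l p q c (φ * ((n : ℝ) + 1))
    calc _ ≤ 2 / (φ * ((n : ℝ) + 1)) ^ 2 * 1 := by
          gcongr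
          exact habs n
      _ = _ := by field_simp
  have hgs : Summable g := Summable.of_norm_bounded (summable_inv_sq (2 / φ ^ 2)) hgb
  have g0 : PB l p q c φ / φ ^ 2 * (1 - 1 / 10 ^ 5) ≤ g 0 := by
    have e : g 0 = PB l p q c φ / φ ^ 2 * cos (φ * (1 / 1000)) := by
      simp only [hg]; norm_num
    rw [e]
    have := one_sub_sq_div_two_le_cos (x := φ * (1 / 1000))
    have b1 : (φ * (1 / 1000)) ^ 2 ≤ 2 / 10 ^ 5 := by
      have : φ * (1 / 1000) ≤ 0.00306 := by linarith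
      calc (φ * (1 / 1000)) ^ 2 ≤ 0.00306 ^ 2 := pow_le_pow_left₀ (by positivity) this 2
        _ ≤ _ := by norm_num
    have b2 : (1:ℝ) - 1 / 10 ^ 5 ≤ cos (φ * (1 / 1000)) := by linarith
    gcongr
  have hkω : ∀ i : ℕ, (2 * (i : ℝ) + 4) * (π / (2 * t)) = φ * (((i + 1 : ℕ) : ℝ) + 1) := by
    intro i; rw [hφ]; push_cast; field_simp; ring
  simp_rw [hkω] at hT4
  have hT : Summable fun i : ℕ => |PB l p q c (φ * (((i + 1 : ℕ) : ℝ) + 1))| / (2 * (i : ℝ) + 4) ^ 2 :=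
    summable_of_sum_range_le (fun i => by positivity) hT4
  have hT' : ∑' i : ℕ, |PB l p q c (φ * (((i + 1 : ℕ) : ℝ) + 1))| / (2 * (i : ℝ) + 4) ^ 2 ≤ T4 :=
    Real.tsum_le_of_sum_range_le (fun i => by positivity) hT4
  have g1 : -(4 / φ ^ 2 * T4) ≤ ∑' n : ℕ, g (n + 1) := by
    have b1 : ∀ i : ℕ, -g (i + 1) ≤
        4 / φ ^ 2 * (|PB l p q c (φ * (((i + 1 : ℕ) : ℝ) + 1))| / (2 * (i : ℝ) + 4) ^ 2) := by
      intro i
      refine (neg_le_abs _).trans ?_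
      simp only [hg]
      rw [abs_mul, abs_div,
        abs_of_pos (by positivity : 0 < (φ * (((i + 1 : ℕ) : ℝ) + 1)) ^ 2)]
      calc _ ≤ |PB l p q c (φ * (((i + 1 : ℕ) : ℝ) + 1))| / (φ * (((i + 1 : ℕ) : ℝ) + 1)) ^ 2 * 1 := by
            gcongr
            exact habs (i + 1)
        _ = _ := by
            push_cast
            have : 2 * (i : ℝ) + 4 = 2 * ((i : ℝ) + 1 + 1) := by ring
            rw [this]
            field_simp
            norm_num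
    have sg : Summable fun i : ℕ => -g (i + 1) := ((summable_nat_add_iff 1).mpr hgs).neg
    have b2 := sg.tsum_le_tsum b1 (hT.mul_left _)
    rw [tsum_mul_left, tsum_neg] at b2
    have b3 : 4 / φ ^ 2 * ∑' i : ℕ, |PB l p q c (φ * (((i + 1 : ℕ) : ℝ) + 1))| /
        (2 * (i : ℝ) + 4) ^ 2 ≤ 4 / φ ^ 2 * T4 := by gcongr
    linarith
  have gsum : 4 / φ ^ 2 * (1 / 10 ^ 4 * (p ^ 2 - q ^ 2) ^ 2) ≤ ∑' n, g n := by
    rw [hgs.tsum_eq_zero_add]
    have e : PB l p q c φ / φ ^ 2 * (1 - 1 / 10 ^ 5) =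
      4 / φ ^ 2 * ((1 - 1 / 10 ^ 5) * PB l p q c φ / 4) := by field_simp
    rw [e] at g0
    have : 4 / φ ^ 2 * (1 / 10 ^ 4 * (p ^ 2 - q ^ 2) ^ 2) ≤
      4 / φ ^ 2 * ((1 - 1 / 10 ^ 5) * PB l p q c φ / 4 - T4) := by
      apply mul_le_mul_of_nonneg_left _ (by positivity)
      linarith
    linarith
  set N : ℝ := 2 ^ (l.length + 2) with hN
  have hN0 : 0 < N := by positivity
  have hd0 : 0 < (p ^ 2 - q ^ 2) ^ 2 := K.dpos
  have f1 : N / t * (4 / φ ^ 2 * (1 / 10 ^ 4 * (p ^ 2 - q ^ 2) ^ 2)) ≤ N / t * ∑' n, g n := by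
    gcongr
  have f2 : N * ((p ^ 2 - q ^ 2) ^ 2 * (2.1 / 10 ^ 5)) <
      N / t * (4 / φ ^ 2 * (1 / 10 ^ 4 * (p ^ 2 - q ^ 2) ^ 2)) := by
    have e : N / t * (4 / φ ^ 2 * (1 / 10 ^ 4 * (p ^ 2 - q ^ 2) ^ 2)) =
      N * (p ^ 2 - q ^ 2) ^ 2 * (4 / 10 ^ 4 / (t * φ * φ)) := by field_simp
    have e2 : t * φ = π := by rw [hφ]; field_simp
    rw [e, e2]
    have e3 : N * ((p ^ 2 - q ^ 2) ^ 2 * (2.1 / 10 ^ 5)) =
      N * (p ^ 2 - q ^ 2) ^ 2 * (2.1 / 10 ^ 5) := by ring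
    rw [e3]
    apply mul_lt_mul_of_pos_left _ (by positivity)
    rw [lt_div_iff₀ (by positivity)]
    have : π * φ ≤ 3.15 * 3.06 := mul_le_mul hπ.le hθ1 hθ0.le (by norm_num)
    nlinarith
  linarith

end Ker

/-- the exclusion of the pair: if the explicit odd and even inequalities hold at `t`, then for all
`s ≥ t + 1/1000` the tail of the vector with the pair `(c, c)` is at least the tail of the vector
with the pair `(p, q)`. -/
theorem pair_exclusion {p q c : ℝ} (hq : 0 ≤ q) (hqp : q < p) (hc0 : 0 ≤ c)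
    (hc : 2 * c ^ 2 = p ^ 2 + q ^ 2) (l : List ℝ)
    (hl : p ^ 2 + q ^ 2 + (l.map fun x => x ^ 2).sum = 1) {t : ℝ} (ht : 1.031 ≤ t)
    (h1 : 0 ≤ Ker.PB l p q c (π / (2 * t))) (h3 : 0 ≤ Ker.PB l p q c (3 * (π / (2 * t)))) {T7 : ℝ}
    (hT7 : ∀ m : ℕ, ∑ i ∈ Finset.range m, |Ker.PB l p q c ((2 * (i : ℝ) + 7) * (π / (2 * t)))| /
      (2 * (i : ℝ) + 7) ≤ T7)
    (hodd : Ker.PB l p q c (π / (2 * t)) + max (Ker.PB l p q c (5 * (π / (2 * t)))) 0 / 5 + T7 +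
      2 / 10 ^ 9 * (p ^ 2 - q ^ 2) ^ 2 ≤ (1 - 1 / 10 ^ 5) * Ker.PB l p q c (3 * (π / (2 * t))) / 3)
    (h2' : 0 ≤ Ker.PB l p q c (2 * (π / (2 * t)))) {T4 : ℝ}
    (hT4 : ∀ m : ℕ, ∑ i ∈ Finset.range m, |Ker.PB l p q c ((2 * (i : ℝ) + 4) * (π / (2 * t)))| /
      (2 * (i : ℝ) + 4) ^ 2 ≤ T4)
    (heven : T4 + 1 / 10 ^ 4 * (p ^ 2 - q ^ 2) ^ 2 ≤
      (1 - 1 / 10 ^ 5) * Ker.PB l p q c (2 * (π / (2 * t))) / 4) {s : ℝ}
    (hs : t + 1 / 1000 ≤ s) :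
    AL (l ++ [p, q]) H s ≤ AL (l ++ [c, c]) H s := by
  have hp : 0 < p := hq.trans_lt hqp
  have hcpos : 0 < c := by
    rcases hc0.eq_or_lt with h | h
    · rw [← h] at hc
      nlinarith [sq_nonneg q, pow_pos hp 2]
    · exact h
  have hlt : p * q < c * c := by nlinarith [sq_pos_of_pos (sub_pos.mpr hqp)]
  obtain ⟨r, hr, hd, hm2, hm4⟩ := exists_base hq hqp.le hc0 le_rfl (by linarith) hlt
  have K : Ker p q c l r := ⟨hq, hqp, hcpos, hc, hl, hr, hd, hm2, hm4⟩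
  have hodd' := K.odd_fact ht h1 h3 hT7 hodd
  have heven' := K.even_fact ht h2' hT4 heven hodd'
  obtain ⟨z, hz, hanti⟩ := K.sh.crossing (by linarith) (by linarith) heven' hodd'
  have c1 : Continuous (A p (A q H)) := AAH_continuous hp hq
  have c2 : Continuous (A c (A c H)) := AAH_continuous hcpos hcpos.le
  have hD : HasDerivAt (AL l r) (AL l (A p (A q H)) s - AL l (A c (A c H)) s) s := by
    have := hasDerivAt_AL hd (c1.sub c2) l
    have e := AL_sub c1 c2 l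
    have h3 := this s
    rw [e] at h3
    exact h3
  have hzs : z < s := by linarith
  have hle := hanti.derivWithin_nonpos (x := s)
  have hu : UniqueDiffWithinAt ℝ (Ici z) s := (uniqueDiffOn_Ici z) s hzs.le
  rw [(hD.hasDerivWithinAt).derivWithin hu] at hle
  rw [AL_append, AL_append]
  have e1 : AL [p, q] H = A p (A q H) := rfl
  have e2 : AL [c, c] H = A c (A c H) := rfl
  rw [e1, e2]
  linarith

end Pool.Agent.Helper95.SP
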