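import Pool.Agent.Helper95.SP.CombNat

/-!
Pair facts: explicit inequalities between products of `sinc` imply that replacing the pair `(p, q)`
by `(c, c)` increases the tail for all `s ≥ t + 1/1000`.
-/

set_option autoImplicit false

namespace Pool.Agent.Helper95.SP

open MeasureTheory Set Slab Real Filter Topology

/-- the standing assumptions on the kernel -/
structure Ker (p q c : ℝ) (l : List ℝ) (r : ℝ → ℝ) : Prop where
  hq : 0 ≤ q
  hqp : q < p
  hc0 : 0 < c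
  hc : 2 * c ^ 2 = p ^ 2 + q ^ 2
  hl : p ^ 2 + q ^ 2 + (l.map fun x => x ^ 2).sum = 1
  hr : Sh r
  hd : ∀ s, HasDerivAt r (A p (A q H) s - A c (A c H) s) s
  h2 : 0 < ∫ s, s ^ 2 * r s
  h4 : ∫ s, s ^ 4 * r s = 6 / 7 * (p ^ 2 + q ^ 2) * ∫ s, s ^ 2 * r s

namespace Ker

variable {p q c : ℝ} {l : List ℝ} {r : ℝ → ℝ}

theorem hp (K : Ker p q c l r) : 0 < p := K.hq.trans_lt K.hqp

theorem sh (K : Ker p q c l r) : Sh (AL l r) := K.hr.AL l

theorem anti (K : Ker p q c l r) : AntitoneOn (AL l r) (Ici 1.8258) :=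
  antitone_R K.hp K.hq K.hc0 K.hr K.hd K.h2 K.h4 l K.hl

theorem nonneg (K : Ker p q c l r) {s : ℝ} (hs : 1.8258 ≤ s) : 0 ≤ AL l r s := by
  obtain ⟨L, hL⟩ := K.sh.supp
  have h1 : AL l r (max L s) ≤ AL l r s := K.anti hs (hs.trans (le_max_right _ _)) (le_max_right _ _)
  rwa [hL _ ((le_max_left L s).trans (le_abs_self _))] at h1

theorem dpos (K : Ker p q c l r) : 0 < (p ^ 2 - q ^ 2) ^ 2 := by
  have h1 := K.hqp
  have h2 := K.hq
  have : 0 < p ^ 2 - q ^ 2 := by nlinarith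
  positivity

/-- sum of the values far out -/
theorem tail_sum (K : Ker p q c l r) {P x : ℝ} (hP : 2 ≤ P) (hx : 5 ≤ P + x) :
    ∑' n : ℕ, AL l r (P * ((n : ℝ) + 1) + x) ≤
      2 ^ (l.length + 2) * ((p ^ 2 - q ^ 2) ^ 2 * (1.001 / 10 ^ 12)) := by
  obtain ⟨L, hL⟩ := K.sh.supp
  have s1 := summable_shift hL (by linarith : 0 < P) x
  have hlt : exp (-24) < 1 := by rw [← exp_zero]; exact exp_lt_exp.mpr (by norm_num)
  have s2 : Summable fun n : ℕ => 2 ^ (l.length + 2) * ((p ^ 2 - q ^ 2) ^ 2 *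
      (exp (-24) ^ n / 10 ^ 12)) :=
    (((summable_geometric_of_lt_one (exp_pos _).le hlt).div_const _).mul_left _).mul_left _
  have h3 : ∀ n : ℕ, AL l r (P * ((n : ℝ) + 1) + x) ≤ 2 ^ (l.length + 2) *
      ((p ^ 2 - q ^ 2) ^ 2 * (exp (-24) ^ n / 10 ^ 12)) := by
    intro n
    have hn : (0:ℝ) ≤ n := Nat.cast_nonneg n
    have hy : 5 ≤ P * ((n : ℝ) + 1) + x := by nlinarith
    refine (far_five K.hp K.hq K.hc0 K.hc K.hr K.hd K.h2 K.h4 l K.hl hy).trans ?_
    have e1 : exp (-(12 * (P * ((n : ℝ) + 1) + x - 5))) ≤ exp (-24) ^ n := by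
      rw [← exp_nat_mul]
      apply exp_le_exp.mpr
      nlinarith
    gcongr
  refine (s1.tsum_le_tsum h3 s2).trans ?_
  rw [tsum_mul_left, tsum_mul_left, tsum_div_const, tsum_geometric_of_lt_one (exp_pos _).le hlt]
  have h4 : (1 - exp (-24))⁻¹ ≤ 1.001 := by
    have h5 : exp (-24) ≤ 1 / 1001 := by
      rw [exp_neg, inv_eq_one_div]
      apply one_div_le_one_div_of_le (by norm_num)
      have h6 : exp 24 = exp 1 ^ 24 := by rw [← exp_nat_mul]; norm_num
      rw [h6]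
      calc (1001:ℝ) ≤ 2 ^ 24 := by norm_num
        _ ≤ exp 1 ^ 24 := pow_le_pow_left₀ (by norm_num) (by linarith [add_one_le_exp (1:ℝ)]) 24
    rw [inv_le_comm₀ (by linarith) (by norm_num)]
    refine le_trans ?_ (by linarith : 1 - 1 / 1001 ≤ 1 - exp (-24))
    norm_num
  gcongr

/-- the common value of a pair product -/
noncomputable def PB (l : List ℝ) (p q c ω : ℝ) : ℝ := PP l ω * BB p q c ω

theorem abs_PB_le (l : List ℝ) (p q c ω : ℝ) : |PB l p q c ω| ≤ 2 := by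
  unfold PB
  rw [abs_mul]
  calc |PP l ω| * |BB p q c ω| ≤ 1 * 2 :=
        mul_le_mul (abs_PP_le _ _) (abs_BB_le _ _ _ _) (abs_nonneg _) (by norm_num)
    _ = 2 := by norm_num

/-- the odd identity -/
theorem odd_identity (K : Ker p q c l r) {t h : ℝ} (ht : 0 < t) :
    AL l r (t - h) - AL l r (t + h) +
      ((∑' n : ℕ, AL l r (4 * t * ((n : ℝ) + 1) + (t - h))) -
        ∑' n : ℕ, AL l r (4 * t * ((n : ℝ) + 1) + (t + h))) +
      ((∑' n : ℕ, AL l r (4 * t * ((n : ℝ) + 1) - (t - h))) -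
        ∑' n : ℕ, AL l r (4 * t * ((n : ℝ) + 1) - (t + h))) =
    -(2 ^ (l.length + 2) / t * ∑' n : ℕ, PB l p q c (π / (2 * t) * ((n : ℝ) + 1)) /
      (π / (2 * t) * ((n : ℝ) + 1)) ^ 2 * (sin (((n : ℝ) + 1) * (π / 2)) *
        sin (π / (2 * t) * ((n : ℝ) + 1) * h))) := by
  obtain ⟨L, hL⟩ := K.sh.supp
  have hθ : 2 * π / (4 * t) = π / (2 * t) := by field_simp; norm_num
  have hθ0 : 0 < π / (2 * t) := by positivity
  have hsum := summable_ct K.hp K.hq K.hc0 K.hr K.hd l hθ0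
  have E1 := comb_nat K.sh.cont K.sh.even hL (by linarith : 0 < 4 * t) (by rw [hθ]; exact hsum) (t - h)
  have E2 := comb_nat K.sh.cont K.sh.even hL (by linarith : 0 < 4 * t) (by rw [hθ]; exact hsum) (t + h)
  rw [hθ] at E1 E2
  have b : ∀ x : ℝ, Summable fun n : ℕ => ct (AL l r) (π / (2 * t) * ((n : ℝ) + 1)) *
      cos (π / (2 * t) * ((n : ℝ) + 1) * x) := by
    intro x
    refine Summable.of_norm_bounded hsum.norm fun n => ?_
    rw [norm_mul]
    exact mul_le_of_le_one_right (norm_nonneg _) (abs_cos_le_one _)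
  have e3 : (∑' n : ℕ, ct (AL l r) (π / (2 * t) * ((n : ℝ) + 1)) *
      cos (π / (2 * t) * ((n : ℝ) + 1) * (t - h))) - ∑' n : ℕ, ct (AL l r)
      (π / (2 * t) * ((n : ℝ) + 1)) * cos (π / (2 * t) * ((n : ℝ) + 1) * (t + h)) =
      -(2 * 2 ^ (l.length + 2) * ∑' n : ℕ, PB l p q c (π / (2 * t) * ((n : ℝ) + 1)) /
        (π / (2 * t) * ((n : ℝ) + 1)) ^ 2 * (sin (((n : ℝ) + 1) * (π / 2)) *
        sin (π / (2 * t) * ((n : ℝ) + 1) * h))) := by
    rw [← (b (t - h)).tsum_sub (b (t + h)), ← tsum_mul_left, ← tsum_neg]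
    congr 1
    ext n
    rw [ct_R K.hp K.hq K.hc0 K.hr K.hd l]
    have c1 : π / (2 * t) * ((n : ℝ) + 1) * (t - h) =
        ((n : ℝ) + 1) * (π / 2) - π / (2 * t) * ((n : ℝ) + 1) * h := by field_simp
    have c2 : π / (2 * t) * ((n : ℝ) + 1) * (t + h) =
        ((n : ℝ) + 1) * (π / 2) + π / (2 * t) * ((n : ℝ) + 1) * h := by field_simp
    rw [c1, c2, cos_sub, cos_add]
    unfold PB
    ring
  have e4 : AL l r (t - h) - AL l r (t + h) +
      ((∑' n : ℕ, AL l r (4 * t * ((n : ℝ) + 1) + (t - h))) -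
        ∑' n : ℕ, AL l r (4 * t * ((n : ℝ) + 1) + (t + h))) +
      ((∑' n : ℕ, AL l r (4 * t * ((n : ℝ) + 1) - (t - h))) -
        ∑' n : ℕ, AL l r (4 * t * ((n : ℝ) + 1) - (t + h))) =
      1 / (4 * t) * (2 * ((∑' n : ℕ, ct (AL l r) (π / (2 * t) * ((n : ℝ) + 1)) *
      cos (π / (2 * t) * ((n : ℝ) + 1) * (t - h))) - ∑' n : ℕ, ct (AL l r)
      (π / (2 * t) * ((n : ℝ) + 1)) * cos (π / (2 * t) * ((n : ℝ) + 1) * (t + h)))) := by
    linear_combination E1 - E2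
  rw [e4, e3]
  generalize (∑' n : ℕ, PB l p q c (π / (2 * t) * ((n : ℝ) + 1)) /
        (π / (2 * t) * ((n : ℝ) + 1)) ^ 2 * (sin (((n : ℝ) + 1) * (π / 2)) *
        sin (π / (2 * t) * ((n : ℝ) + 1) * h))) = T
  field_simp
  ring

/-- the even identity -/
theorem even_identity (K : Ker p q c l r) {t h : ℝ} (ht : 0 < t) :
    AL l r (t - h) + (∑' n : ℕ, AL l r (2 * t * ((n : ℝ) + 1) + (t - h))) +
      (∑' n : ℕ, AL l r (2 * t * ((n : ℝ) + 1) - (t - h))) =
    2 ^ (l.length + 2) / t * ∑' n : ℕ, PB l p q c (π / t * ((n : ℝ) + 1)) /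
      (π / t * ((n : ℝ) + 1)) ^ 2 * ((-1) ^ n * cos (π / t * ((n : ℝ) + 1) * h)) := by
  obtain ⟨L, hL⟩ := K.sh.supp
  have hθ : 2 * π / (2 * t) = π / t := by field_simp
  have hθ0 : 0 < π / t := by positivity
  have hsum := summable_ct K.hp K.hq K.hc0 K.hr K.hd l hθ0
  have E1 := comb_nat K.sh.cont K.sh.even hL (by linarith : 0 < 2 * t) (by rw [hθ]; exact hsum) (t - h)
  rw [hθ] at E1
  rw [E1]
  have e0 : ct (AL l r) 0 = 0 := by
    unfold ct
    simp [K.sh.int0]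
  rw [e0, zero_add]
  have e3 : (∑' n : ℕ, ct (AL l r) (π / t * ((n : ℝ) + 1)) *
      cos (π / t * ((n : ℝ) + 1) * (t - h))) =
      2 ^ (l.length + 2) * ∑' n : ℕ, PB l p q c (π / t * ((n : ℝ) + 1)) /
      (π / t * ((n : ℝ) + 1)) ^ 2 * ((-1) ^ n * cos (π / t * ((n : ℝ) + 1) * h)) := by
    rw [← tsum_mul_left]
    congr 1
    ext n
    rw [ct_R K.hp K.hq K.hc0 K.hr K.hd l]
    have c1 : π / t * ((n : ℝ) + 1) * (t - h) = ((n + 1 : ℕ) : ℝ) * π - π / t * ((n : ℝ) + 1) * h := by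
      push_cast; field_simp
    rw [c1, cos_nat_mul_pi_sub]
    unfold PB
    rw [pow_succ]
    ring
  rw [e3]
  generalize (∑' n : ℕ, PB l p q c (π / t * ((n : ℝ) + 1)) /
      (π / t * ((n : ℝ) + 1)) ^ 2 * ((-1) ^ n * cos (π / t * ((n : ℝ) + 1) * h))) = T
  field_simp

theorem sin_mul_le {a : ℝ} (ha : 0 ≤ a) : sin a ≤ a := sin_le ha

theorem far_odd (K : Ker p q c l r) {t : ℝ} (ht : 1.031 ≤ t) :
    ((∑' n : ℕ, AL l r (4 * t * ((n : ℝ) + 1) + (t - 1 / 1000))) -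
        ∑' n : ℕ, AL l r (4 * t * ((n : ℝ) + 1) + (t + 1 / 1000))) +
      ((∑' n : ℕ, AL l r (4 * t * ((n : ℝ) + 1) - (t - 1 / 1000))) -
        ∑' n : ℕ, AL l r (4 * t * ((n : ℝ) + 1) - (t + 1 / 1000))) ≤
      2 ^ (l.length + 2) * ((p ^ 2 - q ^ 2) ^ 2 * (1.001 / 10 ^ 12)) := by
  obtain ⟨L, hL⟩ := K.sh.supp
  have f1 : ∑' n : ℕ, AL l r (4 * t * ((n : ℝ) + 1) + (t - 1 / 1000)) ≤
      2 ^ (l.length + 2) * ((p ^ 2 - q ^ 2) ^ 2 * (1.001 / 10 ^ 12)) :=
    K.tail_sum (by linarith) (by linarith)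
  have hn' : ∀ n : ℕ, 4 * t ≤ 4 * t * ((n : ℝ) + 1) := by
    intro n
    have hn : (0:ℝ) ≤ n := Nat.cast_nonneg n
    have : 0 ≤ 4 * t * (n : ℝ) := mul_nonneg (by linarith) hn
    linarith
  have f2 : 0 ≤ ∑' n : ℕ, AL l r (4 * t * ((n : ℝ) + 1) + (t + 1 / 1000)) := by
    apply tsum_nonneg
    intro n
    apply K.nonneg
    linarith [hn' n]
  have s1 : Summable fun n : ℕ => AL l r (4 * t * ((n : ℝ) + 1) - (t - 1 / 1000)) :=
    summable_shift hL (by linarith : 0 < 4 * t) (-(t - 1 / 1000))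
  have s2 : Summable fun n : ℕ => AL l r (4 * t * ((n : ℝ) + 1) - (t + 1 / 1000)) :=
    summable_shift hL (by linarith : 0 < 4 * t) (-(t + 1 / 1000))
  have f3 : ∑' n : ℕ, AL l r (4 * t * ((n : ℝ) + 1) - (t - 1 / 1000)) ≤
      ∑' n : ℕ, AL l r (4 * t * ((n : ℝ) + 1) - (t + 1 / 1000)) := by
    refine s1.tsum_le_tsum (fun n => ?_) s2
    apply K.anti
    · show (1.8258:ℝ) ≤ _
      linarith [hn' n]
    · show (1.8258:ℝ) ≤ _
      linarith [hn' n]
    · linarith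
  linarith

/-- the odd fact -/
theorem odd_fact (K : Ker p q c l r) {t : ℝ} (ht : 1.031 ≤ t)
    (h1 : 0 ≤ PB l p q c (π / (2 * t))) (h3 : 0 ≤ PB l p q c (3 * (π / (2 * t)))) {T7 : ℝ}
    (hT7 : ∀ m : ℕ, ∑ i ∈ Finset.range m, |PB l p q c ((2 * (i : ℝ) + 7) * (π / (2 * t)))| /
      (2 * (i : ℝ) + 7) ≤ T7)
    (H : PB l p q c (π / (2 * t)) + max (PB l p q c (5 * (π / (2 * t)))) 0 / 5 + T7 +
      2 / 10 ^ 9 * (p ^ 2 - q ^ 2) ^ 2 ≤ (1 - 1 / 10 ^ 5) * PB l p q c (3 * (π / (2 * t))) / 3) :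
    AL l r (t + 1 / 1000) < AL l r (t - 1 / 1000) := by
  set h : ℝ := 1 / 1000 with hh
  set θ : ℝ := π / (2 * t) with hθ
  have ht0 : 0 < t := by linarith
  have hθ0 : 0 < θ := by positivity
  have hπ : π < 3.15 := pi_lt_d2
  have hθ1 : θ ≤ 1.53 := by
    rw [hθ, div_le_iff₀ (by linarith)]
    nlinarith
  obtain ⟨L, hL⟩ := K.sh.supp
  have id := K.odd_identity (h := h) ht0
  rw [← hθ] at id
  set g : ℕ → ℝ := fun n => PB l p q c (θ * ((n : ℝ) + 1)) / (θ * ((n : ℝ) + 1)) ^ 2 *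
    (sin (((n : ℝ) + 1) * (π / 2)) * sin (θ * ((n : ℝ) + 1) * h)) with hg
  -- summability of g
  have hgb : ∀ n, |g n| ≤ 2 / θ ^ 2 / ((n : ℝ) + 1) ^ 2 := by
    intro n
    have hn : (0:ℝ) < (n : ℝ) + 1 := by positivity
    simp only [hg]
    rw [abs_mul, abs_div, abs_mul, abs_of_pos (by positivity : 0 < (θ * ((n : ℝ) + 1)) ^ 2)]
    have b1 := abs_PB_le l p q c (θ * ((n : ℝ) + 1))
    have b2 : |sin (((n : ℝ) + 1) * (π / 2))| * |sin (θ * ((n : ℝ) + 1) * h)| ≤ 1 :=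
      mul_le_one₀ (abs_sin_le_one _) (abs_nonneg _) (abs_sin_le_one _)
    calc _ ≤ 2 / (θ * ((n : ℝ) + 1)) ^ 2 * 1 := by gcongr
      _ = _ := by field_simp
  have hgs : Summable g := Summable.of_norm_bounded (summable_inv_sq (2 / θ ^ 2)) hgb
  have gval : ∀ n : ℕ, sin (((n : ℝ) + 1) * (π / 2)) = 0 → g n = 0 := by
    intro n hn
    simp only [hg]; rw [hn]; ring
  have s2 : ∀ m : ℕ, sin ((m : ℝ) * π) = 0 := sin_nat_mul_pi
  have g1 : g 1 = 0 := by
    apply gval; have := s2 1; convert this using 2; push_cast; ring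
  have g3 : g 3 = 0 := by
    apply gval; have := s2 2; convert this using 2; push_cast; ring
  have g5 : g 5 = 0 := by
    apply gval; have := s2 3; convert this using 2; push_cast; ring
  have g0 : g 0 ≤ h / θ * PB l p q c θ := by
    have e : g 0 = PB l p q c θ / θ ^ 2 * sin (θ * h) := by
      simp only [hg]; norm_num
    rw [e]
    have := sin_mul_le (a := θ * h) (by positivity)
    calc PB l p q c θ / θ ^ 2 * sin (θ * h) ≤ PB l p q c θ / θ ^ 2 * (θ * h) := by gcongr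
      _ = _ := by field_simp
  have g2 : g 2 ≤ -(h / θ * ((1 - 1 / 10 ^ 5) * PB l p q c (3 * θ) / 3)) := by
    have e : g 2 = -(PB l p q c (3 * θ) / (3 * θ) ^ 2 * sin (3 * θ * h)) := by
      simp only [hg]
      have a1 : ((2 : ℕ) : ℝ) + 1 = 3 := by norm_num
      have a2 : sin (3 * (π / 2)) = -1 := by
        have : 3 * (π / 2) = π / 2 + π := by ring
        rw [this, sin_add_pi, sin_pi_div_two]
      rw [a1, a2]
      ring_nf
    rw [e]
    have h30 : 0 < 3 * θ * h := by positivity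
    have b1 := (sin_gt_sub_cube h30).le
    have b2 : 3 * θ * h * (1 - 1 / 10 ^ 5) ≤ sin (3 * θ * h) := by
      refine le_trans ?_ b1
      have b3 : (3 * θ * h) ^ 2 ≤ 6 / 10 ^ 5 := by
        have : 3 * θ * h ≤ 0.0046 := by rw [hh]; nlinarith
        calc (3 * θ * h) ^ 2 ≤ 0.0046 ^ 2 := pow_le_pow_left₀ h30.le this 2
          _ ≤ _ := by norm_num
      nlinarith
    have b4 : 0 ≤ PB l p q c (3 * θ) / (3 * θ) ^ 2 := by positivity
    have b5 := mul_le_mul_of_nonneg_left b2 b4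
    have b6 : PB l p q c (3 * θ) / (3 * θ) ^ 2 * (3 * θ * h * (1 - 1 / 10 ^ 5)) =
        h / θ * ((1 - 1 / 10 ^ 5) * PB l p q c (3 * θ) / 3) := by field_simp
    linarith
  have g4 : g 4 ≤ h / θ * (max (PB l p q c (5 * θ)) 0 / 5) := by
    have e : g 4 = PB l p q c (5 * θ) / (5 * θ) ^ 2 * sin (5 * θ * h) := by
      simp only [hg]
      have a1 : ((4 : ℕ) : ℝ) + 1 = 5 := by norm_num
      have a2 : sin (5 * (π / 2)) = 1 := by
        have : 5 * (π / 2) = π / 2 + 2 * π := by ring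
        rw [this, sin_add_two_pi, sin_pi_div_two]
      rw [a1, a2]
      ring_nf
    rw [e]
    have h50 : 0 < 5 * θ * h := by positivity
    have b1 := sin_mul_le h50.le
    have b2 : 0 ≤ sin (5 * θ * h) := by
      apply sin_nonneg_of_nonneg_of_le_pi h50.le
      have : 5 * θ * h ≤ 1 := by rw [hh]; nlinarith
      linarith [pi_gt_three]
    calc PB l p q c (5 * θ) / (5 * θ) ^ 2 * sin (5 * θ * h)
        ≤ max (PB l p q c (5 * θ)) 0 / (5 * θ) ^ 2 * (5 * θ * h) := by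
          gcongr
          exact le_max_left _ _
      _ = _ := by field_simp
  -- the tail
  have hT : Summable fun i : ℕ => |PB l p q c ((2 * (i : ℝ) + 7) * θ)| / (2 * (i : ℝ) + 7) :=
    summable_of_sum_range_le (fun i => by positivity) hT7
  have hT' : ∑' i : ℕ, |PB l p q c ((2 * (i : ℝ) + 7) * θ)| / (2 * (i : ℝ) + 7) ≤ T7 :=
    Real.tsum_le_of_sum_range_le (fun i => by positivity) hT7
  have g6 : ∑' n : ℕ, g (n + 6) ≤ h / θ * T7 := by
    have inj : Function.Injective fun i : ℕ => 2 * i := fun a b hab => by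
      have : 2 * a = 2 * b := hab
      omega
    have hsupp : Function.support (fun n : ℕ => g (n + 6)) ⊆ Set.range fun i : ℕ => 2 * i := by
      intro n hn
      rw [Function.mem_support] at hn
      rcases Nat.even_or_odd' n with ⟨m, hm | hm⟩
      · exact ⟨m, hm.symm⟩
      · exfalso
        apply hn
        apply gval
        have := s2 (m + 4)
        convert this using 2
        rw [hm]; push_cast; ring
    rw [← inj.tsum_eq hsupp]
    have b1 : ∀ i : ℕ, g (2 * i + 6) ≤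
        h / θ * (|PB l p q c ((2 * (i : ℝ) + 7) * θ)| / (2 * (i : ℝ) + 7)) := by
      intro i
      have hi : (0:ℝ) < 2 * (i : ℝ) + 7 := by positivity
      have e : g (2 * i + 6) = PB l p q c ((2 * (i : ℝ) + 7) * θ) / ((2 * (i : ℝ) + 7) * θ) ^ 2 *
          (sin ((2 * (i : ℝ) + 7) * (π / 2)) * sin ((2 * (i : ℝ) + 7) * θ * h)) := by
        simp only [hg]
        have a1 : ((2 * i + 6 : ℕ) : ℝ) + 1 = 2 * (i : ℝ) + 7 := by push_cast; ring
        rw [a1, mul_comm θ]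
      rw [e]
      have b2 : |sin ((2 * (i : ℝ) + 7) * θ * h)| ≤ (2 * (i : ℝ) + 7) * θ * h := by
        have := abs_sin_le_abs (x := (2 * (i : ℝ) + 7) * θ * h)
        rwa [abs_of_pos (by positivity : 0 < (2 * (i : ℝ) + 7) * θ * h)] at this
      refine (le_abs_self _).trans ?_
      rw [abs_mul, abs_div, abs_mul,
        abs_of_pos (by positivity : 0 < ((2 * (i : ℝ) + 7) * θ) ^ 2)]
      calc |PB l p q c ((2 * (i : ℝ) + 7) * θ)| / ((2 * (i : ℝ) + 7) * θ) ^ 2 *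
            (|sin ((2 * (i : ℝ) + 7) * (π / 2))| * |sin ((2 * (i : ℝ) + 7) * θ * h)|)
          ≤ |PB l p q c ((2 * (i : ℝ) + 7) * θ)| / ((2 * (i : ℝ) + 7) * θ) ^ 2 *
            (1 * ((2 * (i : ℝ) + 7) * θ * h)) := by
            gcongr
            exact abs_sin_le_one _
        _ = _ := by field_simp
    have sg : Summable fun i : ℕ => g (2 * i + 6) := by
      have := (summable_nat_add_iff 6).mpr hgs
      exact this.comp_injective inj
    refine (sg.tsum_le_tsum b1 (hT.mul_left _)).trans ?_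
    rw [tsum_mul_left]
    gcongr
  have gsum : ∑' n, g n ≤ h / θ * (PB l p q c θ - (1 - 1 / 10 ^ 5) * PB l p q c (3 * θ) / 3 +
      max (PB l p q c (5 * θ)) 0 / 5 + T7) := by
    rw [← hgs.sum_add_tsum_nat_add 6]
    simp only [Finset.sum_range_succ, Finset.sum_range_zero]
    rw [g1, g3, g5]
    have e : h / θ * (PB l p q c θ - (1 - 1 / 10 ^ 5) * PB l p q c (3 * θ) / 3 +
      max (PB l p q c (5 * θ)) 0 / 5 + T7) = h / θ * PB l p q c θ +
      -(h / θ * ((1 - 1 / 10 ^ 5) * PB l p q c (3 * θ) / 3)) +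
      h / θ * (max (PB l p q c (5 * θ)) 0 / 5) + h / θ * T7 := by ring
    rw [e]
    linarith
  -- the far terms
  have f0 := K.far_odd ht
  rw [← hh] at f0
  set N : ℝ := 2 ^ (l.length + 2) with hN
  have hN0 : 0 < N := by positivity
  set d : ℝ := (p ^ 2 - q ^ 2) ^ 2 with hd
  have hd0 : 0 < d := K.dpos
  have f4 : N / t * (h / θ * (2 / 10 ^ 9 * d)) ≤ -(N / t * ∑' n, g n) := by
    have : ∑' n, g n ≤ -(h / θ * (2 / 10 ^ 9 * d)) := by
      refine gsum.trans ?_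
      rw [← mul_neg]
      apply mul_le_mul_of_nonneg_left _ (by positivity)
      linarith
    have h6 : 0 ≤ N / t := by positivity
    nlinarith
  have f5 : N * (d * (1.001 / 10 ^ 12)) < N / t * (h / θ * (2 / 10 ^ 9 * d)) := by
    have e : N / t * (h / θ * (2 / 10 ^ 9 * d)) = N * d * (2 / 10 ^ 9 * h / (t * θ)) := by
      field_simp
    have e2 : t * θ = π / 2 := by rw [hθ]; field_simp
    rw [e, e2]
    have : N * (d * (1.001 / 10 ^ 12)) = N * d * (1.001 / 10 ^ 12) := by ring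
    rw [this]
    apply mul_lt_mul_of_pos_left _ (by positivity)
    rw [lt_div_iff₀ (by positivity), hh]
    nlinarith
  linarith

end Ker

end Pool.Agent.Helper95.SP
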